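import Mathlib
import Pool.Agent.P.MP_8707bd_ag.Tate.Core

/-!
Sections of a ruled torus, weights of monomials and a theorem of Bezout type (helper file only).
-/

namespace Pool.Agent.P.MP_8707bd_ag.Nef

open Polynomial Tate

/-- All monomials of `F` have weight at least `a`. -/
def Wt (x y a : ℝ) (F : ℂ[X][X]) : Prop :=
  ∀ l n : ℕ, (F.coeff l).coeff n ≠ 0 → a ≤ x * n + y * l

lemma exists_min (x y : ℝ) {F : ℂ[X][X]} {l₀ n₀ : ℕ} (h0 : (F.coeff l₀).coeff n₀ ≠ 0) :
    ∃ l n : ℕ, (F.coeff l).coeff n ≠ 0 ∧ ∀ l' n' : ℕ, (F.coeff l').coeff n' ≠ 0 →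
      x * n + y * l ≤ x * n' + y * l' ∧ (x * n + y * l = x * n' + y * l' → l ≤ l') := by
  classical
  have hm : ∀ {l n : ℕ}, (F.coeff l).coeff n ≠ 0 → (⟨l, n⟩ : Σ _ : ℕ, ℕ) ∈
      F.support.sigma fun l => (F.coeff l).support := fun {l n} h =>
    Finset.mem_sigma.2 ⟨mem_support_iff.2 fun e => h (by rw [e, coeff_zero]), mem_support_iff.2 h⟩
  obtain ⟨⟨l, n⟩, h1, h2⟩ := Finset.exists_min_image (F.support.sigma fun l => (F.coeff l).support)
    (fun p => toLex (x * p.2 + y * p.1, p.1)) ⟨_, hm h0⟩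
  refine ⟨l, n, mem_support_iff.1 (Finset.mem_sigma.1 h1).2, fun l' n' h => ?_⟩
  have h3 := Prod.Lex.toLex_le_toLex.1 (h2 _ (hm h))
  rcases h3 with h3 | ⟨h3, h4⟩
  · exact ⟨h3.le, fun e => absurd e h3.ne⟩
  · exact ⟨h3.le, fun _ => h4⟩

lemma Wt.cancel {x y a c : ℝ} (hx : x ≠ 0) {F G : ℂ[X][X]} (h : Wt x y a (F * G)) {l₀ n₀ : ℕ}
    (h0 : (F.coeff l₀).coeff n₀ ≠ 0) (hc : x * n₀ + y * l₀ ≤ c) : Wt x y (a - c) G := by
  intro l n hG
  obtain ⟨l₁, n₁, f1, f2⟩ := exists_min x y h0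
  obtain ⟨l₂, n₂, g1, g2⟩ := exists_min x y hG
  have hk : ∀ i j p q : ℕ, i + j = l₁ + l₂ → p + q = n₁ + n₂ →
      (F.coeff i).coeff p * (G.coeff j).coeff q ≠ 0 → i = l₁ ∧ p = n₁ := by
    intro i j p q e1 e2 e3
    obtain ⟨u1, u2⟩ := f2 i p (left_ne_zero_of_mul e3)
    obtain ⟨v1, v2⟩ := g2 j q (right_ne_zero_of_mul e3)
    have e1' : (i : ℝ) + j = l₁ + l₂ := by exact_mod_cast e1
    have e2' : (p : ℝ) + q = n₁ + n₂ := by exact_mod_cast e2
    have e4 : x * p + y * i + (x * q + y * j) = x * n₁ + y * l₁ + (x * n₂ + y * l₂) := by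
      linear_combination x * e2' + y * e1'
    have u3 := u2 (by linarith)
    have v3 := v2 (by linarith)
    have e5 : i = l₁ := by omega
    subst e5
    have e6 : x * p = x * n₁ := by linarith
    exact ⟨rfl, by exact_mod_cast mul_left_cancel₀ hx e6⟩
  have key : ((F * G).coeff (l₁ + l₂)).coeff (n₁ + n₂) =
      (F.coeff l₁).coeff n₁ * (G.coeff l₂).coeff n₂ := by
    rw [coeff_mul, finsetSum_coeff, Finset.sum_eq_single (l₁, l₂), coeff_mul,
      Finset.sum_eq_single (n₁, n₂)]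
    · rintro ⟨p, q⟩ hp hne
      rw [Finset.HasAntidiagonal.mem_antidiagonal] at hp
      by_contra e
      obtain ⟨-, rfl⟩ := hk _ _ _ _ rfl hp e
      exact hne (by simp only at hp; rw [show q = n₂ by omega])
    · simp
    · rintro ⟨i, j⟩ hi hne
      rw [Finset.HasAntidiagonal.mem_antidiagonal] at hi
      rw [coeff_mul]
      refine Finset.sum_eq_zero fun pq hp => ?_
      rw [Finset.HasAntidiagonal.mem_antidiagonal] at hp
      by_contra e
      obtain ⟨rfl, -⟩ := hk _ _ _ _ hi hp e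
      exact hne (by simp only at hi; rw [show j = l₂ by omega])
    · simp
  have h1 := h _ _ (key ▸ mul_ne_zero f1 g1)
  have h2 := (f2 _ _ h0).1
  have h3 := (g2 _ _ hG).1
  push_cast at h1
  linarith

lemma Wt.cancel_pow {x y c : ℝ} (hx : x ≠ 0) {F : ℂ[X][X]} {l₀ n₀ : ℕ}
    (h0 : (F.coeff l₀).coeff n₀ ≠ 0) (hc : x * n₀ + y * l₀ ≤ c) (e : ℕ) :
    ∀ {a : ℝ} {G : ℂ[X][X]}, Wt x y a (F ^ e * G) → Wt x y (a - e * c) G := by
  induction e with
  | zero => intro a G h; simpa using h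
  | succ e ih =>
    intro a G h
    rw [pow_succ', mul_assoc] at h
    have := ih (h.cancel hx h0 hc)
    rwa [show a - c - e * c = a - ((e + 1 : ℕ) : ℝ) * c by push_cast; ring] at this

lemma Wt.cancel_prod {x y c : ℝ} (hx : x ≠ 0) {ι : Type} (s : Finset ι) {F : ι → ℂ[X][X]}
    {l₀ n₀ : ℕ} (h0 : ∀ i ∈ s, ((F i).coeff l₀).coeff n₀ ≠ 0) (hc : x * n₀ + y * l₀ ≤ c) (e : ℕ) :
    ∀ {a : ℝ} {G : ℂ[X][X]}, Wt x y a ((∏ i ∈ s, F i ^ e) * G) →
      Wt x y (a - s.card * (e * c)) G := by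
  classical
  induction s using Finset.induction_on with
  | empty => intro a G h; simpa using h
  | insert i s hi ih =>
    intro a G h
    rw [Finset.prod_insert hi, mul_assoc] at h
    have := ih (fun j hj => h0 j (Finset.mem_insert_of_mem hj))
      (Wt.cancel_pow hx (h0 i (Finset.mem_insert_self _ _)) hc e h)
    rwa [show a - e * c - s.card * (e * c) = a - ((insert i s).card : ℝ) * (e * c) by
      rw [Finset.card_insert_of_notMem hi]; push_cast; ring] at this

section Sec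

variable {R : Type} [CommRing R] [IsDomain R]

/-- The equation of the section `u = A / B`. -/
noncomputable def sec (A B : R) : R[X] := C B * X - C A

/-- The numerator of the restriction of `F` to the section `u = A / B`. -/
noncomputable def ev (A B : R) (F : R[X]) : R := eval A (F.scaleRoots B)

lemma ev_mul (A B : R) (F G : R[X]) : ev A B (F * G) = ev A B F * ev A B G := by
  rw [ev, mul_scaleRoots_of_noZeroDivisors, eval_mul, ev, ev]

omit [IsDomain R] in
lemma ev_one (A B : R) : ev A B 1 = 1 := by simp [ev]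

lemma ev_pow (A B : R) (F : R[X]) (e : ℕ) : ev A B (F ^ e) = ev A B F ^ e := by
  induction e with
  | zero => simp [ev_one]
  | succ e ih => rw [pow_succ, ev_mul, ih, pow_succ]

lemma ev_prod (A B : R) {ι : Type} (s : Finset ι) (F : ι → R[X]) :
    ev A B (∏ i ∈ s, F i) = ∏ i ∈ s, ev A B (F i) := by
  classical
  induction s using Finset.induction_on with
  | empty => simp [ev_one]
  | insert i s hi ih => rw [Finset.prod_insert hi, Finset.prod_insert hi, ev_mul, ih]

omit [IsDomain R] in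
lemma ev_sum (A B : R) (F : R[X]) : ev A B F = ∑ l ∈ Finset.range (F.natDegree + 1),
    F.coeff l * (B ^ (F.natDegree - l) * A ^ l) := by
  rw [ev, eval_eq_sum_range, natDegree_scaleRoots]
  simp only [coeff_scaleRoots, mul_assoc]

omit [IsDomain R] in
lemma sec_zero (A B : R) : (sec A B).coeff 0 = -A := by simp [sec]

omit [IsDomain R] in
lemma sec_one (A B : R) : (sec A B).coeff 1 = B := by simp [sec, coeff_C]

omit [IsDomain R] in
lemma sec_deg (A : R) {B : R} (hB : B ≠ 0) : (sec A B).natDegree = 1 := by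
  rw [sec, sub_eq_add_neg, ← C_neg, natDegree_linear hB]

omit [IsDomain R] in
lemma ev_sec (A B A' : R) {B' : R} (hB : B' ≠ 0) : ev A B (sec A' B') = B' * A - A' * B := by
  rw [ev_sum, sec_deg _ hB, Finset.sum_range_succ, Finset.sum_range_one, sec_zero, sec_one]
  ring

omit [IsDomain R] in
lemma map_ev {S : Type} [CommRing S] (f : R →+* S) {A B : R} {g : S} (hg : f B * g = f A)
    (F : R[X]) : f (ev A B F) = f B ^ F.natDegree * eval₂ f g F := by
  rw [← scaleRoots_eval₂_mul, hg, eval₂_at_apply, ev]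

omit [IsDomain R] in
lemma sec_dvd {A B : R} (h : IsCoprime A B) {F : R[X]} (hF : ev A B F = 0) : sec A B ∣ F := by
  obtain ⟨a, b, hab⟩ := h
  set f := AdjoinRoot.of (sec A B) with hf
  have h1 : f B * AdjoinRoot.root (sec A B) = f A := by
    have := AdjoinRoot.eval₂_root (sec A B)
    have h0 : ∀ ρ, eval₂ f ρ (C B * X - C A) = f B * ρ - f A := fun ρ => by
      rw [eval₂_sub, eval₂_mul, eval₂_C, eval₂_C, eval₂_X]
    exact sub_eq_zero.1 ((h0 _).symm.trans this)
  have h2 := map_ev f h1 F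
  rw [hF, map_zero] at h2
  have h3 : IsUnit (f B) := by
    refine IsUnit.of_mul_eq_one (f a * AdjoinRoot.root (sec A B) + f b) ?_
    rw [← map_one f, ← hab, map_add, map_mul, map_mul, ← h1]
    ring
  have h4 := (h3.pow F.natDegree).mul_right_eq_zero.1 h2.symm
  rw [← AdjoinRoot.mk_eq_zero, ← AdjoinRoot.aeval_eq, aeval_def]
  exact h4

lemma ev_of_dvd {A B : R} (hB : B ≠ 0) {F : R[X]} (h : sec A B ∣ F) : ev A B F = 0 := by
  obtain ⟨G, rfl⟩ := h
  rw [ev_mul, ev_sec _ _ _ hB, mul_comm B A, sub_self, zero_mul]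

lemma prime_sec {A B : R} (h : IsCoprime A B) (hB : B ≠ 0) : Prime (sec A B) := by
  refine ⟨fun e => hB (by rw [← sec_one A B, e, coeff_zero]), fun e => ?_, fun F G hFG => ?_⟩
  · have := natDegree_eq_zero_of_isUnit e
    rw [sec_deg _ hB] at this
    exact one_ne_zero this
  · have := ev_of_dvd hB hFG
    rw [ev_mul, mul_eq_zero] at this
    exact this.imp (sec_dvd h) (sec_dvd h)

lemma prod_pow_dvd {ι : Type} (s : Finset ι) (A B : ι → R) (h : ∀ i ∈ s, IsCoprime (A i) (B i))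
    (hB : ∀ i ∈ s, B i ≠ 0) (hne : ∀ i ∈ s, ∀ j ∈ s, i ≠ j → B j * A i - A j * B i ≠ 0) (e : ℕ)
    {F : R[X]} (hF : ∀ i ∈ s, sec (A i) (B i) ^ e ∣ F) : (∏ i ∈ s, sec (A i) (B i) ^ e) ∣ F := by
  classical
  induction s using Finset.induction_on with
  | empty => simp
  | insert i s hi ih =>
    have m := Finset.mem_insert_self i s
    have m' : ∀ {j}, j ∈ s → j ∈ insert i s := Finset.mem_insert_of_mem
    obtain ⟨G, rfl⟩ := ih (fun j hj => h j (m' hj)) (fun j hj => hB j (m' hj))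
      (fun j hj k hk => hne j (m' hj) k (m' hk)) fun j hj => hF j (m' hj)
    rw [Finset.prod_insert hi, mul_comm]
    refine mul_dvd_mul_left _ ((prime_sec (h i m) (hB i m)).pow_dvd_of_dvd_mul_left e
      (fun hd => ?_) (hF i m))
    have := ev_of_dvd (hB i m) hd
    rw [ev_prod, Finset.prod_eq_zero_iff] at this
    obtain ⟨j, hj, h1⟩ := this
    rw [ev_pow, ev_sec _ _ _ (hB j (m' hj))] at h1
    exact hne i m j (m' hj) (fun e => hi (e ▸ hj)) (eq_zero_of_pow_eq_zero h1)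

end Sec

lemma filt_pow {B : Type} [CommRing B] (W : Filt B) {x : B} (h : W.V 1 x) (k : ℕ) :
    W.V k (x ^ k) := by
  induction k with
  | zero => exact W.top _
  | succ k ih => rw [pow_succ]; exact W.mul ih h

/-- The Taylor expansion at `τ`. -/
noncomputable def tay (τ : ℂ) : ℂ[X] →+* PowerSeries ℂ :=
  coeToPowerSeries.ringHom.comp (taylorAlgHom τ : ℂ[X] →+* ℂ[X])

lemma tay_apply (τ : ℂ) (p : ℂ[X]) : tay τ p = (taylor τ p : ℂ[X]) := rfl

lemma tay_const (τ : ℂ) (p : ℂ[X]) : PowerSeries.constantCoeff (tay τ p) = p.eval τ := by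
  rw [tay_apply, ← PowerSeries.coeff_zero_eq_constantCoeff_apply, coeff_coe, taylor_coeff_zero]

lemma tay_dvd (τ : ℂ) (p : ℂ[X]) (k : ℕ) :
    PowerSeries.X ^ k ∣ tay τ p ↔ (X - C τ) ^ k ∣ p := by
  constructor
  · intro h
    rw [tay_apply, PowerSeries.X_pow_dvd_iff] at h
    have h1 : X ^ k ∣ taylor τ p := X_pow_dvd_iff.2 fun m hm => by simpa using h m hm
    have h2 := map_dvd (taylorAlgHom (-τ)) h1
    simpa [taylor_taylor, sub_eq_add_neg] using h2
  · intro h
    have h1 := map_dvd (tay τ) h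
    rwa [map_pow, show tay τ (X - C τ) = PowerSeries.X by simp [tay_apply]] at h1

/-- The order of vanishing of the restriction to a section at a marked point. -/
lemma local_order {A B : ℂ[X]} {τ u : ℂ} (hB : B.eval τ ≠ 0) (hu : A.eval τ = u * B.eval τ)
    {G : ℂ[X][X]} {e μ : ℕ}
    (h : ∀ k, (X - C τ) ^ (μ - k) ∣ (taylor (C u) (sec A B ^ e * G)).coeff k) :
    (X - C τ) ^ (μ - e) ∣ ev A B G := by
  have hU : IsUnit (tay τ B) := by
    rw [PowerSeries.isUnit_iff_constantCoeff, tay_const]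
    exact hB.isUnit
  obtain ⟨b, hb⟩ := hU.exists_right_inv
  set g := tay τ A * b with hg
  have hg' : tay τ B * g = tay τ A := by rw [hg, mul_left_comm, hb, mul_one]
  set γ := g - tay τ (C u) with hγ
  have hγ1 : PowerSeries.X ∣ γ := by
    rw [PowerSeries.X_dvd_iff, hγ, map_sub, tay_const, eval_C, sub_eq_zero]
    have := congrArg PowerSeries.constantCoeff hg'
    rw [map_mul, tay_const, tay_const, hu, mul_comm u] at this
    exact mul_left_cancel₀ hB this
  set W := (powFilt (PowerSeries.X : PowerSeries ℂ)).poly with hW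
  have hV1 : W.V 1 (X + C γ) := by
    intro i
    rcases Nat.eq_zero_or_pos i with rfl | hi
    · change PowerSeries.X ^ 1 ∣ _
      simpa using hγ1
    · rw [show 1 - i = 0 by omega]
      exact (powFilt _).top _
  set T := taylor (C u) (sec A B ^ e * G) with hT
  have hV : W.V μ (eval₂ (C.comp (tay τ)) (X + C γ) T) := by
    rw [eval₂_eq_sum_range]
    refine W.sum _ fun k _ => W.anti (l := μ - k + k) (by omega) (W.mul ?_ (filt_pow W hV1 k))
    intro i
    rw [RingHom.comp_apply, coeff_C]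
    split_ifs with hi
    · subst hi
      exact (tay_dvd _ _ _).2 (h k)
    · exact (powFilt _).zero _
  have h1 : eval₂ (C.comp (tay τ)) (X + C γ) T =
      X ^ e * (C (tay τ B ^ e) * eval₂ (C.comp (tay τ)) (X + C g) G) := by
    rw [hT, taylor_apply, eval₂_comp, eval₂_add, eval₂_X, eval₂_C, RingHom.comp_apply, add_assoc,
      ← C_add, hγ, sub_add_cancel, eval₂_mul, eval₂_pow, sec, eval₂_sub, eval₂_mul, eval₂_C,
      eval₂_C, eval₂_X, RingHom.comp_apply, RingHom.comp_apply, mul_add, ← C_mul, hg',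
      add_sub_cancel_right, map_pow]
    ring
  have h2 : PowerSeries.X ^ (μ - e) ∣ _ := hV e
  rw [h1, coeff_X_pow_mul', if_pos le_rfl, Nat.sub_self, coeff_C_mul, ← constantCoeff_apply,
    hom_eval₂, show constantCoeff.comp (C.comp (tay τ)) = tay τ by ext1 <;> [ext1; skip] <;> simp,
    show constantCoeff (X + C g) = g by simp] at h2
  rw [← tay_dvd, map_ev _ hg']
  exact ((hU.pow e).dvd_mul_left.1 h2).mul_left _

/-- The exponents of the restriction to a section. -/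
lemma ev_range {A B : ℂ[X]} (hA : A.coeff 0 = 0) {G : ℂ[X][X]} {n : ℕ}
    (hn : (ev A B G).coeff n ≠ 0) : ∃ l p q : ℕ, l ≤ G.natDegree ∧ (G.coeff l).coeff p ≠ 0 ∧
      p + q = n ∧ l ≤ q ∧ q ≤ (G.natDegree - l) * B.natDegree + l * A.natDegree := by
  rw [ev_sum, finsetSum_coeff] at hn
  obtain ⟨l, hl, h1⟩ := Finset.exists_ne_zero_of_sum_ne_zero hn
  rw [coeff_mul] at h1
  obtain ⟨⟨p, q⟩, hpq, h2⟩ := Finset.exists_ne_zero_of_sum_ne_zero h1
  rw [Finset.HasAntidiagonal.mem_antidiagonal] at hpq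
  have h3 := right_ne_zero_of_mul h2
  refine ⟨l, p, q, Nat.lt_succ_iff.1 (Finset.mem_range.1 hl), left_ne_zero_of_mul h2, hpq,
    not_lt.1 fun h => h3 ?_, (le_natDegree_of_ne_zero h3).trans ?_⟩
  · exact X_pow_dvd_iff.1 ((pow_dvd_pow_of_dvd (X_dvd_iff.2 hA) l).mul_left _) q h
  · exact natDegree_mul_le.trans (add_le_add natDegree_pow_le natDegree_pow_le)

lemma count {κ : Type} [Fintype κ] {τ : κ → ℂ} (hτ : Function.Injective τ) (h0 : ∀ k, τ k ≠ 0)
    {c : κ → ℕ} {Ψ : ℂ[X]} (hΨ : Ψ ≠ 0) (h : ∀ k, (X - C (τ k)) ^ c k ∣ Ψ) :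
    ∃ n₁ n₂, Ψ.coeff n₁ ≠ 0 ∧ Ψ.coeff n₂ ≠ 0 ∧ n₁ + ∑ k, c k ≤ n₂ := by
  have hdvd : (∏ k, (X - C (τ k)) ^ c k) ∣ Ψ :=
    Finset.prod_dvd_of_coprime (fun i _ j _ hij => (pairwise_coprime_X_sub_C hτ hij).pow)
      fun k _ => h k
  obtain ⟨n₁, n₂, e1, e2, e3⟩ := two_exps hΨ hdvd (by
    simp [coeff_zero_eq_eval_zero, eval_prod, Finset.prod_eq_zero_iff, h0])
  rw [natDegree_prod _ _ fun i _ => pow_ne_zero _ (X_sub_C_ne_zero _)] at e3
  simp only [natDegree_pow, natDegree_X_sub_C, mul_one] at e3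
  exact ⟨n₁, n₂, e1, e2, e3⟩

end Pool.Agent.P.MP_8707bd_ag.Nef
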