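import Mathlib
import Pool.Agent.P.MP_8707bd_ag.Nef.Sec
import Pool.Agent.P.MP_8707bd_ag.All.Transfer
import Pool.Agent.P.MP_8707bd_ag.Small.Fa

/-!
A rational curve with nodes in the triangle model gives a bound for the degree of plane curves;
two families of such curves cover all numbers of points from 36 on (helper file only).
-/

namespace Pool.Agent.P.MP_8707bd_ag.Nef

open Polynomial Tate
open Pool.Agent.P.MP_8707bd_ag.Win (KE tri)

/-- Rotation of the variable. -/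
noncomputable def rot (ζ : ℂ) : ℂ[X] →+* ℂ[X] := compRingHom (C ζ * X)

lemma rot_coeff (ζ : ℂ) (p : ℂ[X]) (n : ℕ) : (rot ζ p).coeff n = p.coeff n * ζ ^ n :=
  comp_C_mul_X_coeff

lemma rot_one (p : ℂ[X]) : rot 1 p = p := by
  ext n
  rw [rot_coeff, one_pow, mul_one]

lemma rot_X (ζ : ℂ) : rot ζ X = C ζ * X := X_comp

lemma rot_C (ζ c : ℂ) : rot ζ (C c) = C c := C_comp

/-- The product of the resultants with the other sections. -/
noncomputable def res (A B : ℂ[X]) (Z : Finset ℂ) : ℂ[X] := ∏ ζ ∈ Z, (rot ζ B * A - rot ζ A * B)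

/-- The curve `w = τ ^ h`, `u = A τ / B τ` touches the three sides of the triangle. -/
structure Data (h π : ℕ) (lam : ℝ) (A B : ℂ[X]) (Z : Finset ℂ) : Prop where
  cop : IsCoprime A B
  a0 : A.coeff 0 = 0
  a1 : A.coeff 1 ≠ 0
  b0 : B.coeff 0 ≠ 0
  degB : B.natDegree = π
  degA : (A.natDegree : ℝ) ≤ 1 + 3 * lam
  one : 1 ∉ Z
  card : Z.card + 1 = h
  root : ∀ ζ ∈ Z, ζ ^ h = 1

variable {h π : ℕ} {lam : ℝ} {A B : ℂ[X]} {Z : Finset ℂ}

lemma Data.cross (D : Data h π lam A B Z) {ζ ξ : ℂ} (hne : ζ ≠ ξ) :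
    rot ξ B * rot ζ A - rot ξ A * rot ζ B ≠ 0 := by
  intro e
  have := congrArg (fun p : ℂ[X] => p.coeff 1) e
  simp only [coeff_sub, mul_coeff_one, rot_coeff, D.a0, coeff_zero] at this
  refine mul_ne_zero (mul_ne_zero D.a1 D.b0) (sub_ne_zero.2 hne) ?_
  linear_combination this

lemma Data.res_ne (D : Data h π lam A B Z) : res A B Z ≠ 0 := by
  refine Finset.prod_ne_zero_iff.2 fun ζ hζ => ?_
  have := D.cross (ζ := 1) (ξ := ζ) fun e => D.one (e ▸ hζ)
  rwa [rot_one, rot_one] at this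

theorem cover (D : Data h π lam A B Z) (hl : (π : ℝ) + 9 * h ≤ 3 * lam) {F : ℂ[X][X]} (hF : F ≠ 0)
    (hinv : ∀ ζ ∈ Z, F.map (rot ζ) = F) {a : ℝ} {d : ℕ}
    (hL : Wt 1 (1 - π + 3 * lam - 9 * h) a F)
    (hR : Wt (-1) (-(1 - π + 3 * lam)) (-(a + 3 * h * d)) F)
    {κ : Type} [Fintype κ] {τ u : κ → ℂ} {μ m : κ → ℕ} (hτ : Function.Injective τ)
    (h0 : ∀ k, τ k ≠ 0) (hB : ∀ k, B.eval (τ k) ≠ 0)
    (hu : ∀ k, A.eval (τ k) = u k * B.eval (τ k))
    (hm : ∀ k, rootMultiplicity (τ k) (res A B Z) < m k) (hm' : ∑ k, (m k : ℝ) ≤ lam ^ 2)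
    (hv : ∀ k j, (X - C (τ k)) ^ (μ k - j) ∣ (taylor (C (u k)) F).coeff j) :
    ∑ k, (μ k : ℝ) ≤ d * lam := by
  classical
  have hh : 0 < h := D.card ▸ Nat.succ_pos _
  have hh' : (0 : ℝ) < h := by exact_mod_cast hh
  have hB0 : B ≠ 0 := fun e => D.b0 (by rw [e, coeff_zero])
  have hZ : ∀ ζ ∈ insert 1 Z, ζ ≠ 0 := by
    intro ζ hζ e
    rcases Finset.mem_insert.1 hζ with h1 | h1
    · exact one_ne_zero (h1.symm.trans e)
    · have := D.root ζ h1
      rw [e, zero_pow hh.ne'] at this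
      exact zero_ne_one this
  have hrB : ∀ ζ : ℂ, rot ζ B ≠ 0 := fun ζ e => D.b0 (by
    have := rot_coeff ζ B 0
    rw [e, coeff_zero, pow_zero, mul_one] at this
    exact this.symm)
  obtain ⟨e, G₀, hG₀, hFG₀⟩ := WfDvdMonoid.max_power_factor hF
    (prime_sec D.cop hB0).irreducible
  obtain ⟨G, hG⟩ := prod_pow_dvd (insert 1 Z) (fun ζ => rot ζ A) (fun ζ => rot ζ B)
    (fun ζ _ => D.cop.map (rot ζ)) (fun ζ _ => hrB ζ) (fun ζ _ ξ _ hne => D.cross hne) e (F := F)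
    (fun ζ hζ => by
      have h1 : F.map (rot ζ) = F := by
        rcases Finset.mem_insert.1 hζ with rfl | h1
        · ext l : 1
          rw [coeff_map, rot_one]
        · exact hinv ζ h1
      have h2 := map_dvd (rot ζ) (⟨G₀, hFG₀⟩ : sec A B ^ e ∣ F)
      rwa [h1, Polynomial.map_pow, show (sec A B).map (rot ζ) = sec (rot ζ A) (rot ζ B) by
        simp [sec]] at h2)
  have hcard : ((insert 1 Z).card : ℝ) = h := by
    rw [Finset.card_insert_of_notMem D.one, D.card]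
  have hl1 : (1 : ℝ) ≤ 1 - π + 3 * lam - 9 * h := by linarith
  have hL' := Wt.cancel_prod (c := 1) one_ne_zero (insert 1 Z) (l₀ := 0) (n₀ := 1)
    (F := fun ζ => sec (rot ζ A) (rot ζ B)) (fun ζ hζ => by
      rw [sec_zero, coeff_neg, rot_coeff, pow_one]
      exact neg_ne_zero.2 (mul_ne_zero D.a1 (hZ ζ hζ))) (by simp) e (hG ▸ hL)
  have hR' := Wt.cancel_prod (c := -(1 + 3 * lam)) (neg_ne_zero.2 one_ne_zero) (insert 1 Z)
    (l₀ := 1) (n₀ := π) (F := fun ζ => sec (rot ζ A) (rot ζ B)) (fun ζ hζ => by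
      rw [sec_one, rot_coeff, ← D.degB]
      exact mul_ne_zero (leadingCoeff_ne_zero.2 hB0) (pow_ne_zero _ (hZ ζ hζ)))
    (by push_cast; linarith) e (hG ▸ hR)
  rw [hcard] at hL' hR'
  rw [Finset.prod_insert D.one, rot_one, rot_one, mul_assoc] at hG
  have hΨ : ev A B G ≠ 0 := by
    intro h1
    refine hG₀ ?_
    rw [mul_left_cancel₀ (pow_ne_zero e (prime_sec D.cop hB0).ne_zero) (hFG₀.symm.trans hG)]
    exact (sec_dvd D.cop h1).mul_left _
  have hG0 : G ≠ 0 := by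
    rintro rfl
    exact hΨ (by simp [ev])
  have hdv : ∀ k, (X - C (τ k)) ^ (μ k - e * m k) ∣ ev A B G := by
    intro k
    have h1 := local_order (hB k) (hu k) (hG ▸ hv k)
    have h2 : ev A B (∏ ζ ∈ Z, sec (rot ζ A) (rot ζ B) ^ e) = res A B Z ^ e := by
      rw [ev_prod, res, ← Finset.prod_pow]
      exact Finset.prod_congr rfl fun ζ _ => by rw [ev_pow, ev_sec _ _ _ (hrB ζ)]
    rw [ev_mul, h2] at h1
    obtain ⟨q, hq, hq'⟩ := exists_eq_pow_rootMultiplicity_mul_and_not_dvd _ D.res_ne (τ k)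
    set ρ := rootMultiplicity (τ k) (res A B Z) with hρ
    have h3 : e * (ρ + 1) ≤ e * m k := Nat.mul_le_mul_left _ (hm k)
    have h4 : (X - C (τ k)) ^ (ρ * e) * (X - C (τ k)) ^ (μ k - e * m k) ∣
        (X - C (τ k)) ^ (ρ * e) * (q ^ e * ev A B G) ∨ μ k - e * m k = 0 := by
      rcases Nat.eq_zero_or_pos (μ k - e * m k) with h5 | h5
      · exact Or.inr h5
      · left
        rw [← pow_add, ← mul_assoc, pow_mul, ← mul_pow, ← hq]
        refine (pow_dvd_pow _ ?_).trans h1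
        rw [mul_add, mul_comm e ρ] at h3
        omega
    rcases h4 with h4 | h4
    · exact (prime_X_sub_C (τ k)).pow_dvd_of_dvd_mul_left _
        (fun h5 => hq' ((prime_X_sub_C (τ k)).dvd_of_dvd_pow h5))
        ((mul_dvd_mul_iff_left (pow_ne_zero _ (X_sub_C_ne_zero _))).1 h4)
    · rw [h4, pow_zero]
      exact one_dvd _
  obtain ⟨n₁, n₂, e1, e2, e3⟩ := count hτ h0 hΨ hdv
  obtain ⟨l₁, p₁, q₁, a1, a2, a3, a4, -⟩ := ev_range D.a0 e1
  obtain ⟨l₂, p₂, q₂, b1, b2, b3, -, b5⟩ := ev_range D.a0 e2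
  obtain ⟨p₀, c1⟩ : ∃ p, (G.coeff G.natDegree).coeff p ≠ 0 :=
    ⟨_, leadingCoeff_ne_zero.2 (leadingCoeff_ne_zero.2 hG0)⟩
  set J := G.natDegree with hJ
  have c2 := hL' _ _ c1
  have c3 := hR' _ _ c1
  have a5 := hL' _ _ a2
  have b6 := hR' _ _ b2
  have a1' : (l₁ : ℝ) ≤ J := by exact_mod_cast a1
  have a3' : (p₁ : ℝ) + q₁ = n₁ := by exact_mod_cast a3
  have a4' : (l₁ : ℝ) ≤ q₁ := by exact_mod_cast a4
  have b3' : (p₂ : ℝ) + q₂ = n₂ := by exact_mod_cast b3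
  have b5' : (q₂ : ℝ) ≤ (J - l₂) * π + l₂ * A.natDegree := by
    rw [D.degB] at b5
    rw [← Nat.cast_sub b1]
    exact_mod_cast b5
  have b7 := mul_le_mul_of_nonneg_left D.degA (Nat.cast_nonneg (α := ℝ) l₂)
  have a6 := mul_le_mul_of_nonneg_left a1' (sub_nonneg.2 hl1)
  have e4 : (n₁ : ℝ) + ∑ k, ((μ k : ℝ) - e * m k) ≤ n₂ := by
    refine le_trans ?_ (show (n₁ : ℝ) + ∑ k, ((μ k - e * m k : ℕ) : ℝ) ≤ n₂ by exact_mod_cast e3)
    refine add_le_add le_rfl (Finset.sum_le_sum fun k _ => ?_)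
    have : μ k ≤ μ k - e * m k + e * m k := by omega
    have : (μ k : ℝ) ≤ ((μ k - e * m k : ℕ) : ℝ) + e * m k := by exact_mod_cast this
    linarith
  rw [Finset.sum_sub_distrib, ← Finset.mul_sum] at e4
  have e5 := mul_le_mul_of_nonneg_left hm' (Nat.cast_nonneg (α := ℝ) e)
  have c4 : 3 * (J : ℝ) ≤ d - e * lam := by
    refine le_of_mul_le_mul_left ?_ (by positivity : (0 : ℝ) < 3 * h)
    linarith
  have c5 := mul_le_mul_of_nonneg_left c4 (by
    have := Nat.cast_nonneg (α := ℝ) π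
    linarith : 0 ≤ lam - 3 * h)
  nlinarith

lemma conv (Φ : Polynomial Tate.A) : ∃ (N : ℕ) (Φ₀ : ℂ[X][X]),
    Φ₀.map toLaurent = Φ * C (LaurentPolynomial.T N) := by
  induction Φ using Polynomial.induction_on' with
  | add p q hp hq =>
    obtain ⟨N, p₀, hp⟩ := hp
    obtain ⟨M, q₀, hq⟩ := hq
    refine ⟨N + M, p₀ * C (X ^ M) + q₀ * C (X ^ N), ?_⟩
    rw [Polynomial.map_add, Polynomial.map_mul, Polynomial.map_mul, hp, hq, map_C, map_C,
      toLaurent_X_pow, toLaurent_X_pow, Nat.cast_add, LaurentPolynomial.T_add, C_mul]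
    ring
  | monomial l a =>
    obtain ⟨N, p, hp⟩ := LaurentPolynomial.exists_T_pow a
    exact ⟨N, monomial l p, by rw [map_monomial, hp, monomial_mul_C]⟩

lemma ke_of_emp {K ι : Type} [Field K] [Algebra ℂ K] [Fintype ι] {P : ι → Fin 2 → K} {μ : ι → ℕ}
    {d : ℕ} (h : All.Emp P μ (d + 1)) : KE (tri (d + 1)) μ 0 := by
  set f := (Fintype.equivFin ι).symm with hf
  obtain ⟨Φ, h0, hΦ⟩ := All.transfer _ _ d (h.reindex f)
  obtain ⟨Ψ, h1, hΨ⟩ := Small.exists_gen (Fintype.card ι) 0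
  obtain ⟨p, hp⟩ := Small.exists_pt_fa (Φ * Ψ) (mul_ne_zero h0 h1)
  rw [map_mul, mul_ne_zero_iff] at hp
  have h2 := hΦ p hp.1
  rw [Small.fat_eq_fz (hΨ p hp.2).1] at h2
  have h3 : KE (tri (d + 1)) (fun a => μ (f a)) 0 := by
    refine Small.ke_of_hh_le ((Small.hh_le p _).trans ?_)
    rw [h2, finrank_bot]
  exact h3.reindex f.symm μ fun a => by simp

theorem ke_of_curve (hh : 0 < h) (hl : (π : ℝ) + 9 * h ≤ 3 * lam) {ι κ : Type} [Fintype ι]
    [Fintype κ] (f : κ → ι) (m : κ → ℕ) (hm' : ∑ k, (m k : ℝ) ≤ lam ^ 2)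
    (H : ∀ p : ℂ[X], p ≠ 0 → ∃ (A B : ℂ[X]) (Z : Finset ℂ) (τ : κ → ℂ) (w u : ι → ℂ),
      Data h π lam A B Z ∧ Function.Injective τ ∧ (∀ i, w i ≠ 0 ∧ p.eval (w i) ≠ 0) ∧
      ∀ k, τ k ^ h = w (f k) ∧ B.eval (τ k) ≠ 0 ∧ A.eval (τ k) = u (f k) * B.eval (τ k) ∧
        rootMultiplicity (τ k) (res A B Z) < m k)
    (d : ℕ) (μ : ι → ℕ) (hd : d * lam < ∑ k, (μ (f k) : ℝ)) : KE (tri (d + 1)) μ 0 := by
  have hh' : (0 : ℝ) < h := by exact_mod_cast hh
  set η : ℝ := (1 - π + 3 * lam - 9 * h) / (3 * h) with hη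
  have hη' : 3 * h * η = 1 - π + 3 * lam - 9 * h := by rw [hη]; field_simp
  obtain ⟨p, hp, hcore⟩ := core η
  obtain ⟨A, B, Z, τ, w, u, D, hτ, hw, hk⟩ := H p hp
  obtain ⟨P, hP⟩ := hcore (fun i => Units.mk0 (w i) (hw i).1) u fun i => (hw i).2
  refine ke_of_emp (hP μ d fun Φ hs hv => ?_)
  by_contra hΦ
  obtain ⟨N, Φ₀, h0⟩ := conv Φ
  have hc : ∀ l n : ℕ, (Φ₀.coeff l).coeff n = (Φ.coeff l).coeff (n - N) := by
    intro l n
    have := congrArg (fun a : Polynomial Tate.A => (a.coeff l).coeff (n : ℤ)) h0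
    simp only [coeff_map, coeff_mul_C, LaurentPolynomial.T,
      AddMonoidAlgebra.coeff_mul_single_apply, mul_one] at this
    rw [sub_eq_add_neg, ← this, LaurentPolynomial.coeff_toLaurent]
    exact (Finsupp.mapDomain_apply (Nat.castEmbedding (R := ℤ)).injective _ n).symm
  have hΦ₀ : Φ₀ ≠ 0 := by
    rintro rfl
    rw [Polynomial.map_zero] at h0
    exact mul_ne_zero hΦ (C_ne_zero.2 (LaurentPolynomial.isUnit_T _).ne_zero) h0.symm
  set ex : ℂ[X] →+* ℂ[X] := (expand ℂ h : ℂ[X] →+* ℂ[X]) with hex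
  have hsup : ∀ l n : ℕ, ((Φ₀.map ex).coeff l).coeff n ≠ 0 →
      h * (η * d + N) ≤ n + 3 * h * η * l ∧
        n + 3 * h * (η + 3) * l ≤ h * (η * d + N) + 3 * h * d := by
    intro l n hn
    rw [coeff_map, hex, RingHom.coe_coe, coeff_expand hh] at hn
    split_ifs at hn with hdv
    swap
    · exact absurd rfl hn
    obtain ⟨n', rfl⟩ := hdv
    rw [Nat.mul_div_cancel_left _ hh, hc] at hn
    obtain ⟨-, h1, h2⟩ := hs _ _ hn
    push_cast at h1 h2 ⊢
    have h3 := mul_le_mul_of_nonneg_left h1 hh'.le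
    have h4 := mul_le_mul_of_nonneg_left h2 hh'.le
    constructor <;> linarith
  refine absurd (cover D hl (F := Φ₀.map ex)
    ((Polynomial.map_ne_zero_iff (expand_injective hh)).2 hΦ₀) (fun ζ hζ => ?_)
    (a := h * (η * d + N)) (d := d) (fun l n hn => ?_) (fun l n hn => ?_)
    (u := fun k => u (f k)) (μ := fun k => μ (f k)) hτ (fun k e => ?_) (fun k => (hk k).2.1)
    (fun k => (hk k).2.2.1) (fun k => (hk k).2.2.2) hm' fun k j => ?_) (not_le.2 hd)
  · rw [Polynomial.map_map]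
    congr 1
    refine ringHom_ext (fun c => by simp [hex, rot_C]) ?_
    rw [RingHom.comp_apply, hex, RingHom.coe_coe, expand_X, map_pow, rot_X, mul_pow, ← C_pow,
      D.root ζ hζ, C_1, one_mul]
  · have := (hsup l n hn).1
    rw [← hη']
    linarith
  · have := (hsup l n hn).2
    rw [show 1 - π + 3 * lam = 3 * h * η + 9 * h by linarith]
    linarith
  · have := (hk k).1
    rw [e, zero_pow hh.ne'] at this
    exact (hw _).1 this.symm
  · have h1 : toLaurent ((taylor (C (u (f k))) Φ₀).coeff j) =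
        (taylor (LaurentPolynomial.C (u (f k))) Φ).coeff j * LaurentPolynomial.T N := by
      rw [← coeff_map, map_taylor, h0, toLaurent_C, taylor_mul, taylor_C, coeff_mul_C]
    have h2 := dvd_of_loc (Units.mk0 (w (f k)) (hw _).1) _ (μ (f k) - j)
      (by rw [h1, map_mul]; exact (hv (f k) j).mul_right _)
    have h3 := map_dvd ex h2
    rw [← coeff_map, map_taylor, map_pow, map_sub, hex, RingHom.coe_coe, expand_X, expand_C,
      expand_C, Units.val_mk0, ← (hk k).1, C_pow] at h3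
    exact (pow_dvd_pow_of_dvd (sub_dvd_pow_sub_pow _ _ _) _).trans h3

lemma exists_avoid {q : ℂ[X]} (hq : q ≠ 0) :
    ∃ e : ℕ → ℂ, Function.Injective e ∧ ∀ i, q.eval (e i) ≠ 0 := by
  have hinf : {x : ℂ | ¬ q.IsRoot x}.Infinite := (finite_setOfPred_isRoot hq).infinite_compl
  exact ⟨fun i => hinf.natEmbedding _ i, fun i j e => (hinf.natEmbedding _).injective
    (Subtype.ext e), fun i => (hinf.natEmbedding _ i).2⟩

lemma exists_pairs {S : Finset ℂ} {j : ℂ → ℂ} (hj : ∀ x ∈ S, j x ∈ S ∧ j x ≠ x ∧ j (j x) = x)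
    {n : ℕ} (hn : 2 * n ≤ S.card) : ∃ f : Fin n → ℂ, (∀ i, f i ∈ S) ∧
      Function.Injective (Sum.elim f fun i => j (f i)) := by
  classical
  set T := S.filter fun x => WellOrderingRel x (j x) with hT
  have h1 : S ⊆ T ∪ T.image j := by
    intro x hx
    obtain ⟨k1, k2, k3⟩ := hj x hx
    rcases trichotomous_of WellOrderingRel x (j x) with h | h | h
    · exact Finset.mem_union_left _ (Finset.mem_filter.2 ⟨hx, h⟩)
    · exact absurd h.symm k2
    · exact Finset.mem_union_right _ (Finset.mem_image.2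
        ⟨j x, Finset.mem_filter.2 ⟨k1, by rwa [k3]⟩, k3⟩)
  have h2 : n ≤ T.card := by
    have := (Finset.card_le_card h1).trans (Finset.card_union_le _ _)
    have := Finset.card_image_le (s := T) (f := j)
    omega
  set f : Fin n → ℂ := fun i => T.equivFin.symm (Fin.castLE h2 i) with hf
  have h3 : ∀ i, f i ∈ S ∧ WellOrderingRel (f i) (j (f i)) :=
    fun i => Finset.mem_filter.1 (T.equivFin.symm (Fin.castLE h2 i)).2
  have h4 : Function.Injective f := fun a b e =>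
    Fin.castLE_injective h2 (T.equivFin.symm.injective (Subtype.ext e))
  refine ⟨f, fun i => (h3 i).1, h4.sumElim (fun a b e => h4 ?_) fun a b e => ?_⟩
  · have := congrArg j e
    rwa [(hj _ (h3 a).1).2.2, (hj _ (h3 b).1).2.2] at this
  · have h5 := (h3 a).2
    rw [e, (hj _ (h3 b).1).2.2] at h5
    exact asymm_of WellOrderingRel h5 (h3 b).2

/-- The class with degree `lam`, `n` double points and `t` simple points is nef. -/
def NEF (lam : ℝ) (n t : ℕ) : Prop := ∀ (d : ℕ) (μ : Fin n ⊕ Fin t → ℕ),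
  d * lam < 2 * ∑ i, (μ (Sum.inl i) : ℝ) + ∑ j, (μ (Sum.inr j) : ℝ) → KE (tri (d + 1)) μ 0

theorem nef_of_nodes (hh : 0 < h) (hl : (π : ℝ) + 9 * h ≤ 3 * lam) {n t : ℕ}
    (hnt : 4 * (n : ℝ) + t ≤ lam ^ 2)
    (H : ∀ p : ℂ[X], p ≠ 0 → ∃ (A B : ℂ[X]) (Z S : Finset ℂ) (j : ℂ → ℂ),
      Data h π lam A B Z ∧ 2 * n ≤ S.card ∧ ∀ x ∈ S, (j x ∈ S ∧ j x ≠ x ∧ j (j x) = x) ∧
        x ≠ 0 ∧ p.eval (x ^ h) ≠ 0 ∧ B.eval x ≠ 0 ∧ rootMultiplicity x (res A B Z) ≤ 1 ∧
        j x ^ h = x ^ h ∧ A.eval (j x) * B.eval x = A.eval x * B.eval (j x)) :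
    NEF lam n t := by
  intro d μ hd
  refine ke_of_curve hh hl (κ := (Fin n ⊕ Fin n) ⊕ Fin t)
    (Sum.elim (Sum.elim Sum.inl Sum.inl) Sum.inr) (Sum.elim (fun _ => 2) fun _ => 1) ?_
    (fun p hp => ?_) d μ ?_
  · simp only [Fintype.sum_sum_type, Sum.elim_inl, Sum.elim_inr, Finset.sum_const,
      Finset.card_univ, Fintype.card_sum, Fintype.card_fin, nsmul_eq_mul]
    push_cast
    linarith
  · obtain ⟨A, B, Z, S, j, D, hS, hx⟩ := H p hp
    obtain ⟨f, hf, hinj⟩ := exists_pairs (fun x h => (hx x h).1) hS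
    have hB0 : B ≠ 0 := fun e => D.b0 (by rw [e, coeff_zero])
    obtain ⟨e, he, hq⟩ := exists_avoid (q := X * expand ℂ h p * B * res A B Z * ∏ x ∈ S, (X - C x))
      (mul_ne_zero (mul_ne_zero (mul_ne_zero (mul_ne_zero X_ne_zero
        ((expand_ne_zero hh).2 hp)) hB0) D.res_ne)
        (Finset.prod_ne_zero_iff.2 fun x _ => X_sub_C_ne_zero x))
    simp only [eval_mul, eval_X, expand_eval, eval_prod, eval_sub, eval_C, mul_ne_zero_iff,
      Finset.prod_ne_zero_iff, sub_ne_zero] at hq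
    refine ⟨A, B, Z, Sum.elim (Sum.elim f fun i => j (f i)) fun i => e i,
      Sum.elim (fun i => f i ^ h) fun i => e i ^ h,
      Sum.elim (fun i => A.eval (f i) / B.eval (f i)) fun i => A.eval (e i) / B.eval (e i),
      D, hinj.sumElim (fun a b hab => Fin.ext (he hab)) ?_, ?_, ?_⟩
    · rintro (a | a) b hab
      · exact (hq b).2 _ (hf a) hab.symm
      · exact (hq b).2 _ (hx _ (hf a)).1.1 hab.symm
    · rintro (a | a)
      · exact ⟨pow_ne_zero _ (hx _ (hf a)).2.1, (hx _ (hf a)).2.2.1⟩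
      · exact ⟨pow_ne_zero _ (hq a).1.1.1.1, (hq a).1.1.1.2⟩
    · rintro ((a | a) | a)
      · obtain ⟨-, -, -, k1, k2, -⟩ := hx _ (hf a)
        exact ⟨rfl, k1, (div_mul_cancel₀ _ k1).symm, Nat.lt_succ_of_le k2⟩
      · obtain ⟨k0, -, -, k1, -, k3, k4⟩ := hx _ (hf a)
        obtain ⟨-, -, -, k5, k6, -⟩ := hx _ k0.1
        refine ⟨k3, k5, ?_, Nat.lt_succ_of_le k6⟩
        simp only [Sum.elim_inl, Sum.elim_inr]
        rw [div_mul_eq_mul_div, eq_div_iff k1, k4]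
      · refine ⟨rfl, (hq a).1.1.2, (div_mul_cancel₀ _ (hq a).1.1.2).symm, ?_⟩
        simp only [Sum.elim_inr]
        rw [rootMultiplicity_eq_zero (hq a).1.2]
        exact Nat.one_pos
  · simp only [Fintype.sum_sum_type, Sum.elim_inl, Sum.elim_inr]
    linarith

lemma card_roots {q : ℂ[X]} (hq : q.Separable) : q.roots.toFinset.card = q.natDegree := by
  rw [Multiset.toFinset_card_of_nodup (nodup_roots hq), IsAlgClosed.card_roots_eq_natDegree]

/-- The curve `w = τ ^ h`, `u = κ τ + τ ^ (e + 1)`. -/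
theorem nef_A {e n t : ℕ} (hh : 0 < h) (he0 : 0 < e) (he : h ∣ e + 2) (hl : 3 * (h : ℝ) ≤ lam)
    (hel : (e : ℝ) ≤ 3 * lam) (hn : 2 * n + e ≤ e * h) (hnt : 4 * (n : ℝ) + t ≤ lam ^ 2) :
    NEF lam n t := by
  classical
  refine nef_of_nodes (π := 0) hh (by push_cast; linarith) hnt fun p hp => ?_
  obtain ⟨κ, hκ0, hκ⟩ : ∃ κ : ℂ, κ ≠ 0 ∧ ∀ w, p.eval w = 0 → κ ^ h ≠ w ^ e := by
    obtain ⟨k, -, hk⟩ := exists_avoid (q := X * ∏ w ∈ p.roots.toFinset, (X ^ h - C (w ^ e)))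
      (mul_ne_zero X_ne_zero (Finset.prod_ne_zero_iff.2 fun w _ => X_pow_sub_C_ne_zero hh _))
    have := hk 0
    simp only [eval_mul, eval_X, eval_prod, eval_sub, eval_pow, eval_C, mul_ne_zero_iff,
      Finset.prod_ne_zero_iff, sub_ne_zero] at this
    exact ⟨k 0, this.1, fun w hw => this.2 w (by simp [hp, hw])⟩
  have heh : 0 < e * h := Nat.mul_pos he0 hh
  have hsep : (X ^ (e * h) - C (κ ^ h) : ℂ[X]).Separable :=
    separable_X_pow_sub_C _ (Nat.cast_ne_zero.2 heh.ne') (pow_ne_zero _ hκ0)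
  set Z := (nthRootsFinset h (1 : ℂ)).erase 1 with hZ
  have hZm : ∀ ζ ∈ Z, ζ ≠ 1 ∧ ζ ^ h = 1 := fun ζ hζ =>
    ⟨(Finset.mem_erase.1 hζ).1, (mem_nthRootsFinset hh _).1 (Finset.mem_erase.1 hζ).2⟩
  have h2 : ∀ ζ : ℂ, ζ ^ h = 1 → ζ ^ e * ζ * ζ = 1 := by
    intro ζ hζ
    obtain ⟨c, hc⟩ := he
    rw [← pow_succ, ← pow_succ, hc, pow_mul, hζ, one_pow]
  refine ⟨C κ * X + X ^ (e + 1), 1, Z, (X ^ (e * h) - C (κ ^ h)).roots.toFinset \
    (X ^ e - C κ).roots.toFinset, fun x => x ^ e / κ * x,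
    ⟨isCoprime_one_right, by simp, ?_, by simp, natDegree_one, ?_, Finset.notMem_erase _ _, ?_,
      fun ζ hζ => (hZm ζ hζ).2⟩, ?_, fun x hx => ?_⟩
  · simpa [coeff_X_pow, he0.ne'] using hκ0
  · have : (C κ * X + X ^ (e + 1) : ℂ[X]).natDegree ≤ e + 1 := by
      compute_degree
    have : ((C κ * X + X ^ (e + 1) : ℂ[X]).natDegree : ℝ) ≤ e + 1 := by exact_mod_cast this
    linarith
  · rw [hZ, Finset.card_erase_add_one ((mem_nthRootsFinset hh _).2 (one_pow _)),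
      (Complex.isPrimitiveRoot_exp h hh.ne').card_nthRootsFinset]
  · refine le_trans ?_ (Finset.le_card_sdiff _ _)
    rw [card_roots hsep, card_roots (separable_X_pow_sub_C _ (Nat.cast_ne_zero.2 he0.ne') hκ0),
      natDegree_X_pow_sub_C, natDegree_X_pow_sub_C]
    omega
  · have hmem : ∀ y : ℂ, y ∈ (X ^ (e * h) - C (κ ^ h)).roots.toFinset \
        (X ^ e - C κ).roots.toFinset ↔ y ^ (e * h) = κ ^ h ∧ y ^ e ≠ κ := by
      intro y
      rw [Finset.mem_sdiff, Multiset.mem_toFinset, Multiset.mem_toFinset,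
        mem_roots (X_pow_sub_C_ne_zero heh _), mem_roots (X_pow_sub_C_ne_zero he0 _)]
      simp [sub_eq_zero]
    obtain ⟨x1, x2⟩ := (hmem x).1 hx
    have x0 : x ≠ 0 := by
      rintro rfl
      rw [zero_pow heh.ne'] at x1
      exact pow_ne_zero _ hκ0 x1.symm
    obtain ⟨ζ, hζ⟩ : ∃ ζ, ζ = x ^ e / κ := ⟨_, rfl⟩
    have z0 : x ^ e = ζ * κ := by rw [hζ, div_mul_cancel₀ _ hκ0]
    have z1 : ζ ^ h = 1 := by rw [hζ, div_pow, ← pow_mul, x1, div_self (pow_ne_zero _ hκ0)]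
    have z2 : ζ ≠ 1 := fun e => x2 (by rw [z0, e, one_mul])
    have z3 := h2 ζ z1
    have z4 : (ζ * x) ^ e / κ = ζ ^ e * ζ := by
      rw [mul_pow, z0, ← mul_assoc, mul_div_cancel_right₀ _ hκ0]
    simp only [← hζ]
    refine ⟨⟨(hmem _).2 ⟨?_, fun e1 => z2 ?_⟩, fun e1 => z2 ?_, ?_⟩, x0, fun e1 => ?_, by simp, ?_,
      ?_, ?_⟩
    · rw [mul_pow, x1, mul_comm e h, pow_mul, z1, one_pow, one_mul]
    · rw [e1, div_self hκ0] at z4
      rwa [← z4, one_mul] at z3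
    · exact mul_right_cancel₀ x0 (e1.trans (one_mul x).symm)
    · rw [z4, ← mul_assoc, z3, one_mul]
    · exact hκ _ e1 (by rw [← pow_mul, mul_comm h e, x1])
    · have r1 : res (C κ * X + X ^ (e + 1)) 1 Z =
          (∏ ζ ∈ Z, (C (ζ ^ e * ζ * (ζ - 1)) * X)) * ∏ ζ ∈ Z, (X ^ e - C (ζ * κ)) := by
        rw [res, ← Finset.prod_mul_distrib]
        refine Finset.prod_congr rfl fun ξ hξ => ?_
        have := congrArg (C : ℂ →+* ℂ[X]) (h2 ξ (hZm ξ hξ).2)
        simp only [map_mul, map_pow, map_one, map_add, map_sub, rot_X, rot_C] at this ⊢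
        linear_combination (C κ * (C ξ - 1) * X - X ^ (e + 1)) * this
      have r2 : (∏ ζ ∈ Z, (X ^ e - C (ζ * κ))) ∣ X ^ (e * h) - C (κ ^ h) := by
        refine Finset.prod_dvd_of_coprime (fun a _ b _ hab => ?_) fun ξ hξ => ?_
        · have := (isCoprime_X_sub_C_of_isUnit_sub (a := a * κ) (b := b * κ)
            (sub_ne_zero.2 fun e => hab (mul_right_cancel₀ hκ0 e)).isUnit).map
              (expand ℂ e : ℂ[X] →+* ℂ[X])
          simpa [Function.onFun] using this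
        · have := sub_dvd_pow_sub_pow (X ^ e : ℂ[X]) (C (ξ * κ)) h
          rwa [← pow_mul, ← C_pow, mul_pow, (hZm ξ hξ).2, one_mul] at this
      have r3 : eval x (∏ ζ ∈ Z, (C (ζ ^ e * ζ * (ζ - 1)) * X : ℂ[X])) ≠ 0 := by
        rw [eval_prod]
        refine Finset.prod_ne_zero_iff.2 fun ξ hξ => ?_
        rw [eval_mul, eval_C, eval_X]
        exact mul_ne_zero (mul_ne_zero (left_ne_zero_of_mul_eq_one (h2 ξ (hZm ξ hξ).2))
          (sub_ne_zero.2 (hZm ξ hξ).1)) x0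
      rw [r1, rootMultiplicity_mul (mul_ne_zero (fun e => r3 (by rw [e, eval_zero]))
        (ne_zero_of_dvd_ne_zero hsep.ne_zero r2)), rootMultiplicity_eq_zero r3, zero_add]
      exact (rootMultiplicity_le_rootMultiplicity_of_dvd hsep.ne_zero r2 x).trans
        (rootMultiplicity_le_one_of_separable hsep x)
    · rw [mul_pow, z1, one_mul]
    · simp only [eval_add, eval_mul, eval_C, eval_X, eval_pow, eval_one, mul_pow, pow_succ, z0]
      linear_combination (κ * x) * z3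

/-- The curve `w = τ ^ 2`, `u = τ (τ - ρ) ^ (π + 18) / (τ + ρ) ^ π`. -/
theorem nef_B {n t : ℕ} (hl : (π : ℝ) + 18 ≤ 3 * lam) (hn : n ≤ π + 9)
    (hnt : 4 * (n : ℝ) + t ≤ lam ^ 2) : NEF lam n t := by
  classical
  refine nef_of_nodes (π := π) two_pos (by push_cast; linarith) hnt fun p hp => ?_
  set M := 2 * π + 17 with hM
  have hev : Even (M + 1) := ⟨π + 9, by omega⟩
  set Q : ℂ → ℂ[X] := fun ρ => (X - C ρ) ^ (M + 1) + (X + C ρ) ^ (M + 1) with hQ
  have hQe : ∀ ρ x, (Q ρ).eval x = (x - ρ) ^ (M + 1) + (x + ρ) ^ (M + 1) := by simp [hQ]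
  have hQd : ∀ ρ, (Q ρ).natDegree = M + 1 := by
    intro ρ
    have h1 := (monic_X_sub_C ρ).pow (n := M + 1)
    have h2 := (monic_X_add_C ρ).pow (n := M + 1)
    have h3 : ((X - C ρ) ^ (M + 1)).natDegree = M + 1 := by
      rw [natDegree_pow, natDegree_X_sub_C, mul_one]
    have h4 : ((X + C ρ) ^ (M + 1)).natDegree = M + 1 := by
      rw [natDegree_pow, natDegree_X_add_C, mul_one]
    refine natDegree_eq_of_le_of_coeff_ne_zero
      ((natDegree_add_le _ _).trans (max_le h3.le h4.le)) ?_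
    have h5 := h1.coeff_natDegree
    have h6 := h2.coeff_natDegree
    rw [h3] at h5
    rw [h4] at h6
    rw [coeff_add, h5, h6]
    norm_num
  have hQ0 : ∀ ρ, Q ρ ≠ 0 := fun ρ e => by simpa [e] using hQd ρ
  have hp2 : expand ℂ 2 p ≠ 0 := (expand_ne_zero two_pos).2 hp
  obtain ⟨ρ, hρ0, hρ⟩ : ∃ ρ : ℂ, ρ ≠ 0 ∧ ∀ x, p.eval (x ^ 2) = 0 → (Q x).eval ρ ≠ 0 := by
    obtain ⟨k, -, hk⟩ := exists_avoid (q := X * ∏ x ∈ (expand ℂ 2 p).roots.toFinset, Q x)
      (mul_ne_zero X_ne_zero (Finset.prod_ne_zero_iff.2 fun x _ => hQ0 x))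
    have := hk 0
    simp only [eval_mul, eval_X, eval_prod, mul_ne_zero_iff, Finset.prod_ne_zero_iff] at this
    exact ⟨k 0, this.1, fun x hx => this.2 x (by
      rw [Multiset.mem_toFinset, mem_roots hp2, IsRoot, expand_eval, hx])⟩
  have hne : ∀ x, (Q ρ).eval x = 0 → x + ρ ≠ 0 := by
    intro x hx e
    rw [hQe, e, zero_pow (Nat.succ_ne_zero M), add_zero] at hx
    have := eq_zero_of_pow_eq_zero hx
    exact hρ0 (by linear_combination (e - this) / 2)
  have hsep : (Q ρ).Separable := by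
    refine (isCoprime_iff_aeval_ne_zero_of_isAlgClosed (k := ℂ) ℂ _ _).2 fun x => ?_
    by_contra hc
    push Not at hc
    obtain ⟨h1, h2⟩ := hc
    rw [coe_aeval_eq_eval] at h1 h2
    have h3 := hne x h1
    rw [hQe] at h1
    simp only [hQ, derivative_add, derivative_X_sub_C_pow, derivative_X_add_C_pow, eval_add,
      eval_mul, eval_C, eval_pow, eval_sub, eval_X, Nat.add_sub_cancel] at h2
    have h4 : ((M + 1 : ℕ) : ℂ) * (2 * ρ * (x + ρ) ^ M) = 0 := by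
      linear_combination ((M + 1 : ℕ) : ℂ) * h1 - (x - ρ) * h2
    exact mul_ne_zero (Nat.cast_ne_zero.2 (Nat.succ_ne_zero M))
      (mul_ne_zero (mul_ne_zero two_ne_zero hρ0) (pow_ne_zero _ h3)) h4
  have hmem : ∀ x, x ∈ (Q ρ).roots.toFinset ↔ (Q ρ).eval x = 0 := fun x => by
    rw [Multiset.mem_toFinset, mem_roots (hQ0 ρ), IsRoot]
  have hres : res (X * (X - C ρ) ^ (π + 18)) ((X + C ρ) ^ π) {-1} = C ((-1) ^ π) * X * Q ρ := by
    simp only [res, Finset.prod_singleton, map_mul, map_pow, map_add, map_sub, rot_X, rot_C, hQ,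
      map_neg, map_one]
    rw [show -1 * X + C ρ = -1 * (X - C ρ) by ring, show -1 * X - C ρ = -1 * (X + C ρ) by ring,
      mul_pow, mul_pow, hM]
    ring
  refine ⟨X * (X - C ρ) ^ (π + 18), (X + C ρ) ^ π, {-1}, (Q ρ).roots.toFinset, fun x => -x,
    ⟨?_, by simp, ?_, ?_, ?_, ?_, by norm_num, rfl, by simp⟩, ?_, fun x hx => ?_⟩
  · have h1 := isCoprime_X_sub_C_of_isUnit_sub (a := 0) (b := -ρ) (by simpa using hρ0)
    have h2 := isCoprime_X_sub_C_of_isUnit_sub (a := ρ) (b := -ρ) (by simpa using hρ0)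
    rw [C_neg, sub_neg_eq_add] at h1 h2
    rw [C_0, sub_zero] at h1
    exact (h1.mul_left h2.pow_left).pow_right
  · rw [coeff_X_mul, coeff_zero_eq_eval_zero]
    simp [hρ0]
  · rw [coeff_zero_eq_eval_zero]
    simp [hρ0]
  · rw [natDegree_pow, natDegree_X_add_C, mul_one]
  · rw [natDegree_mul X_ne_zero (pow_ne_zero _ (X_sub_C_ne_zero _)), natDegree_X, natDegree_pow,
      natDegree_X_sub_C, mul_one]
    push_cast
    linarith
  · rw [card_roots hsep, hQd]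
    omega
  · have x1 := (hmem x).1 hx
    have x0 : x ≠ 0 := by
      rintro rfl
      rw [hQe, zero_sub, zero_add, hev.neg_pow, ← two_mul] at x1
      exact mul_ne_zero two_ne_zero (pow_ne_zero _ hρ0) x1
    refine ⟨⟨(hmem _).2 ?_, fun e => x0 (by linear_combination -e / 2), neg_neg x⟩, x0,
      fun e => hρ x e ?_, ?_, ?_, neg_sq x, ?_⟩
    · rw [hQe, show -x - ρ = -(x + ρ) by ring, show -x + ρ = -(x - ρ) by ring, hev.neg_pow,
        hev.neg_pow, add_comm, ← hQe, x1]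
    · rw [hQe, show ρ - x = -(x - ρ) by ring, hev.neg_pow, add_comm ρ x, ← hQe, x1]
    · simpa using fun e => absurd e (hne x x1)
    · have r3 : eval x (C ((-1 : ℂ) ^ π) * X) ≠ 0 := by simp [x0]
      rw [hres, rootMultiplicity_mul (mul_ne_zero (fun e => r3 (by rw [e, eval_zero])) (hQ0 ρ)),
        rootMultiplicity_eq_zero r3, zero_add]
      exact rootMultiplicity_le_one_of_separable hsep x
    · rw [hQe, hM] at x1
      simp only [eval_add, eval_mul, eval_C, eval_X, eval_pow, eval_sub]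
      rw [show -x - ρ = -1 * (x + ρ) by ring, show -x + ρ = -1 * (x - ρ) by ring, mul_pow, mul_pow]
      linear_combination -(-1) ^ π * x * x1

theorem nef_big {r n t : ℕ} (hr : 36 ≤ r) (hnt : 4 * n + t ≤ r)
    (hn : 4 * (n : ℝ) < r - 2 * √r + 7) : NEF √r n t := by
  have hr' : (36 : ℝ) ≤ r := by exact_mod_cast hr
  set lam := √(r : ℝ) with hlam
  have h2 : lam ^ 2 = r := Real.sq_sqrt (by linarith)
  have h0 : 0 ≤ lam := Real.sqrt_nonneg _
  have h6 : 6 ≤ lam := by nlinarith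
  have hnt' : 4 * (n : ℝ) + t ≤ lam ^ 2 := by rw [h2]; exact_mod_cast hnt
  rcases le_total lam 9 with h9 | h9
  · have k1 := Nat.floor_le (show 0 ≤ 3 * lam - 18 by linarith)
    have k2 := Nat.lt_floor_add_one (3 * lam - 18)
    refine nef_B (π := ⌊3 * lam - 18⌋₊) (by linarith) (Nat.le_of_lt_succ ?_) hnt'
    have : (n : ℝ) < ⌊3 * lam - 18⌋₊ + 9 + 1 := by nlinarith
    exact_mod_cast this
  · have k1 := Nat.floor_le (show 0 ≤ lam / 3 by linarith)
    have k2 := Nat.lt_floor_add_one (lam / 3)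
    have k3 : 3 ≤ ⌊lam / 3⌋₊ := Nat.le_floor (by push_cast; linarith)
    set h := ⌊lam / 3⌋₊ with hh
    have k3' : (3 : ℝ) ≤ h := by exact_mod_cast k3
    have k4 := Nat.floor_le (show 0 ≤ (3 * lam + 2) / h by positivity)
    have k5 := Nat.lt_floor_add_one ((3 * lam + 2) / h)
    set N := ⌊(3 * lam + 2) / h⌋₊ with hN
    rw [le_div_iff₀ (by linarith)] at k4
    rw [div_lt_iff₀ (by linarith)] at k5
    have k6 : (3 : ℝ) ≤ N * h := by nlinarith
    obtain ⟨e, he⟩ : ∃ e, N * h = e + 2 := Nat.exists_eq_add_of_le' (by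
      have : 3 ≤ N * h := by exact_mod_cast k6
      omega)
    have he' : (N : ℝ) * h = e + 2 := by exact_mod_cast he
    refine nef_A (h := h) (e := e) (by omega) ?_ (he ▸ dvd_mul_left h N) (by linarith)
      (by linarith) ?_ hnt'
    · have : (0 : ℝ) < e := by linarith
      exact_mod_cast this
    · have k7 : 3 * lam - h ≤ e := by linarith
      have k8 := mul_le_mul_of_nonneg_left k7 (by linarith : (0 : ℝ) ≤ h - 1)
      have k9 := mul_nonneg (by linarith : 0 ≤ lam - 3 * h) (by linarith : 0 ≤ 3 * h + 3 - lam)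
      have : 2 * (n : ℝ) + e ≤ e * h := by nlinarith
      exact_mod_cast this

theorem big {r : ℕ} (hr : 36 ≤ r) : ∃ n t : ℕ, r = 4 * n + t ∧ (t : ℝ) ≤ 2 * √r - 3 ∧
    NEF √r n t := by
  have hr' : (36 : ℝ) ≤ r := by exact_mod_cast hr
  have h2 : √(r : ℝ) ^ 2 = r := Real.sq_sqrt (by linarith)
  have h0 : 0 ≤ √(r : ℝ) := Real.sqrt_nonneg _
  have h6 : 6 ≤ √(r : ℝ) := by nlinarith
  have k1 := Nat.le_ceil (((r : ℝ) - 2 * √r + 3) / 4)
  have k2 := Nat.ceil_lt_add_one (show 0 ≤ ((r : ℝ) - 2 * √r + 3) / 4 by nlinarith)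
  set n := ⌈((r : ℝ) - 2 * √r + 3) / 4⌉₊ with hn
  obtain ⟨t, ht⟩ : ∃ t, r = 4 * n + t := Nat.exists_eq_add_of_le (by
    have : 4 * (n : ℝ) ≤ r := by linarith
    exact_mod_cast this)
  have ht' : (r : ℝ) = 4 * n + t := by exact_mod_cast ht
  exact ⟨n, t, ht, by linarith, nef_big hr ht.ge (by linarith)⟩

end Pool.Agent.P.MP_8707bd_ag.Nef
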