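import Mathlib
import Pool.Agent.P.MP_8707bd_ag.Nef.Big
import Pool.Agent.P.MP_8707bd_ag.Win.Fill

/-!
A curve of genus one with nodes, of degree two over a line, in a weighted projective plane gives
nef classes with three to six double points (helper file only).
-/

namespace Pool.Agent.P.MP_8707bd_ag.Nef

open Tate
open Pool.Agent.P.MP_8707bd_ag.Win (KE tri)
open Pool.Agent.P.MP_8707bd_ag.All.Glue (cf coeff_cf cf_tr)

section Weights

open MvPolynomial

/-- Exponents of weighted degree at most `k`. -/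
def wt (u v k : ℕ) : Set (Fin 2 →₀ ℕ) := {s | u * s 0 + v * s 1 ≤ k}

lemma wt_finite {u v : ℕ} (hu : 0 < u) (hv : 0 < v) (k : ℕ) : (wt u v k).Finite := by
  refine (Win.tri_finite (k + 1)).subset fun s hs => ?_
  have h1 : u * s 0 + v * s 1 ≤ k := hs
  have h2 := Nat.le_mul_of_pos_left (s 0) hu
  have h3 := Nat.le_mul_of_pos_left (s 1) hv
  change s 0 + s 1 < k + 1
  omega

lemma wt_cancel {K : Type} [Field K] {u v k : ℕ} (hu : 0 < u) {g H : MvPolynomial (Fin 2) K}
    (h : ∀ s ∈ (g * H).support, s ∈ wt u v k) {t s : Fin 2 →₀ ℕ} (ht : t ∈ g.support)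
    (hs : s ∈ H.support) : u * t 0 + v * t 1 + (u * s 0 + v * s 1) ≤ k := by
  set D : (Fin 2 →₀ ℕ) → ℕ ×ₗ ℕ := fun s => toLex (u * s 0 + v * s 1, s 1) with hD
  have hinj : Function.Injective D := by
    intro a b hab
    have h1 := congrArg (fun x : ℕ ×ₗ ℕ => (ofLex x).1) hab
    have h2 := congrArg (fun x : ℕ ×ₗ ℕ => (ofLex x).2) hab
    simp only [hD, ofLex_toLex] at h1 h2
    ext i
    fin_cases i
    · exact Nat.eq_of_mul_eq_mul_left hu (by rw [h2] at h1; exact Nat.add_right_cancel h1)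
    · exact h2
  have hadd : ∀ a b, D (a + b) = D a + D b := by
    intro a b
    simp only [hD, Finsupp.add_apply, ← toLex_add, Prod.mk_add_mk]
    congr 2
    ring
  have hg : g ≠ 0 := fun e => by simp [e] at ht
  have hH : H ≠ 0 := fun e => by simp [e] at hs
  have h1 := AddMonoidAlgebra.supDegree_mul hinj hadd (mul_ne_zero
    ((AddMonoidAlgebra.leadingCoeff_ne_zero hinj).2 hg)
    ((AddMonoidAlgebra.leadingCoeff_ne_zero hinj).2 hH)) hg hH
  obtain ⟨a, ha, h2⟩ := AddMonoidAlgebra.exists_supDegree_mem_support D (mul_ne_zero hg hH)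
  have h3 : D (t + s) ≤ D a := by
    rw [← h2, h1, hadd]
    exact add_le_add (Finset.le_sup (f := D) ht) (Finset.le_sup (f := D) hs)
  have h4 : u * a 0 + v * a 1 ≤ k := h a ha
  have h5 := Prod.Lex.toLex_le_toLex.1 h3
  simp only [Finsupp.add_apply, mul_add] at h5
  omega

lemma fac {K B : Type} [Field K] [CommRing B] (ev : MvPolynomial (Fin 2) K →+* B) {u v e : ℕ}
    (hu : 0 < u) (he : 0 < e) {g : MvPolynomial (Fin 2) K} (hg : ∀ F, ev F = 0 → g ∣ F)
    {t : Fin 2 →₀ ℕ} (ht : t ∈ g.support) (het : e ≤ u * t 0 + v * t 1) (k : ℕ) :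
    ∀ G : MvPolynomial (Fin 2) K, G ≠ 0 → (∀ s ∈ G.support, s ∈ wt u v k) →
      ∃ j H, G = g ^ j * H ∧ e * j ≤ k ∧ (∀ s ∈ H.support, s ∈ wt u v (k - e * j)) ∧ ev H ≠ 0 := by
  induction k using Nat.strong_induction_on with
  | _ k ih =>
    intro G hG hs
    by_cases h : ev G = 0
    swap
    · exact ⟨0, G, by simp, by simp, by simpa using hs, h⟩
    obtain ⟨H, rfl⟩ := hg G h
    have hH : H ≠ 0 := right_ne_zero_of_mul hG
    obtain ⟨s₀, hs₀⟩ := support_nonempty.2 hH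
    have h1 := wt_cancel hu hs ht hs₀
    obtain ⟨j, H', e1, e2, e3, e4⟩ := ih (k - e) (by omega) H hH fun s h2 => by
      have := wt_cancel hu hs ht h2
      change u * s 0 + v * s 1 ≤ k - e
      omega
    refine ⟨j + 1, H', by rw [e1]; ring, by rw [mul_add]; omega, ?_, e4⟩
    rwa [show k - e * (j + 1) = k - e - e * j by rw [mul_add]; omega]

theorem cone' {K : Type} [Field K] (g : MvPolynomial (Fin 2) K)
    (Q : ℕ → MvPolynomial (Fin 2) K → Prop) (d : ℕ)
    (F : MvPolynomial (Fin 2) (HahnSeries ℤ K)) (hF : F ≠ 0)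
    (h1 : ∀ e, cf e F ≠ 0 → ∃ j H, cf e F = g ^ j * H ∧ j ≤ d ∧ Q j H) :
    ∃ (a : ℤ) (Hl : ℕ → MvPolynomial (Fin 2) K), (∀ l, Hl l = 0 ∨ Q l (Hl l)) ∧
      (∃ l ≤ d, Q l (Hl l)) ∧
      ∀ (B : Type) [CommRing B] (φ : K →+* B) (x₀ x₁ z : B), eval₂Hom φ ![x₀, x₁] g = 0 →
        (sub1 φ x₀ x₁ z F).coeff a = ∑ l ∈ Finset.range (d + 1),
          (z * eval₂Hom φ ![x₀, x₁] (pderiv 1 g)) ^ l * eval₂Hom φ ![x₀, x₁] (Hl l) := by
  classical
  choose! J H hH hJ hQ using h1
  have hne : F.support.Nonempty := by simpa using hF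
  obtain ⟨s₀, hs₀, hmin⟩ := Finset.exists_min_image _ (fun s => (F.coeff s).order) hne
  have hbdd : ∃ b : ℤ, ∀ a : ℤ, (∃ e, cf e F ≠ 0 ∧ a = e + J e) → b ≤ a := by
    refine ⟨(F.coeff s₀).order, ?_⟩
    rintro _ ⟨e, he, rfl⟩
    obtain ⟨s, hs⟩ := ne_zero_iff.1 he
    rw [coeff_cf] at hs
    have h2 := HahnSeries.order_le_of_coeff_ne_zero hs
    have h3 := hmin s (mem_support_iff.2 (HahnSeries.ne_zero_of_coeff_ne_zero hs))
    omega
  have hinh : ∃ a : ℤ, ∃ e, cf e F ≠ 0 ∧ a = e + J e := by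
    refine ⟨_, (F.coeff s₀).order, ne_zero_iff.2 ⟨s₀, ?_⟩, rfl⟩
    rw [coeff_cf]
    exact HahnSeries.coeff_order_eq_zero.not.2 (mem_support_iff.1 hs₀)
  obtain ⟨a, ⟨e₀, he₀, ha⟩, hleast⟩ := Int.exists_least_of_bdd hbdd hinh
  refine ⟨a, fun l => if cf (a - l) F ≠ 0 ∧ J (a - l) = l then H (a - l) else 0,
    fun l => ?_, ⟨J e₀, hJ _ he₀, ?_⟩, fun B _ φ x₀ x₁ z hg => ?_⟩
  · by_cases h : cf (a - l) F ≠ 0 ∧ J (a - l) = l
    · right
      simp only [if_pos h]
      have := hQ _ h.1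
      rwa [h.2] at this
    · left
      simp only [if_neg h]
  · have e : a - J e₀ = e₀ := by omega
    simp only [e]
    rw [if_pos ⟨he₀, trivial⟩]
    exact hQ _ he₀
  · obtain ⟨L₀, hL⟩ := expansion φ x₀ x₁ z F
    rw [hL (max L₀ (d + 1)) (le_max_left _ _)]
    beta_reduce
    rw [Finset.sum_subset (Finset.range_mono (le_max_right L₀ (d + 1)))]
    · refine Finset.sum_congr rfl fun l _ => ?_
      by_cases h : cf (a - l) F = 0
      · simp [h]
      have h2 := hleast _ ⟨a - l, h, rfl⟩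
      conv_lhs => rw [hH _ h]
      rw [coeff_pow_mul φ x₀ x₁ z hg _ (by omega)]
      by_cases h3 : l = J (a - l)
      · rw [if_pos h3, if_pos ⟨h, h3.symm⟩]
      · rw [if_neg h3, if_neg fun h4 => h3 h4.2.symm, map_zero, mul_zero]
    · intro l _ hl
      rw [if_neg, map_zero, mul_zero]
      rintro ⟨h2, h3⟩
      have := hJ _ h2
      simp at hl
      omega

lemma cf_supp {K : Type} [Field K] {F : MvPolynomial (Fin 2) (HahnSeries ℤ K)} {e : ℤ}
    {s : Fin 2 →₀ ℕ} (h : s ∈ (cf e F).support) : s ∈ F.support := by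
  rw [mem_support_iff] at h ⊢
  intro h0
  rw [coeff_cf, h0] at h
  exact h rfl

lemma cf_mem {K : Type} [Field K] {F : MvPolynomial (Fin 2) (HahnSeries ℤ K)} {q : Fin 2 → K}
    {m : ℕ} (h : F ∈ RingHom.ker (eval fun k => (HahnSeries.C (q k) : HahnSeries ℤ K)) ^ m)
    (e : ℤ) : cf e F ∈ RingHom.ker (eval q) ^ m := by
  rw [All.van_iff] at h ⊢
  intro s hs
  rw [← cf_tr, coeff_cf, h s hs]
  rfl

lemma step {K S : Type} [Field K] [CommRing S] (φ : K →+* S) (x y z : S) (W : Filt S)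
    (e : S →+* K) (he : ∀ c, e (φ c) = c) (hW : ∀ a, e a = 0 → W.V 1 a) {m : ℕ}
    {F : MvPolynomial (Fin 2) (HahnSeries ℤ K)} (hF : F ∈ RingHom.ker (eval
      ![hmap e (HahnSeries.C x), hmap e (HahnSeries.C y + HahnSeries.single 1 z)]) ^ m) (a : ℤ) :
    W.V m ((sub1 φ x y z F).coeff a) := by
  have hcomp : (hmap e).comp (sub1 φ x y z) = eval
      ![hmap e (HahnSeries.C x), hmap e (HahnSeries.C y + HahnSeries.single 1 z)] := by
    refine MvPolynomial.ringHom_ext (fun c => ?_) fun i => ?_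
    · rw [RingHom.comp_apply, sub1, eval₂Hom_C, eval_C]
      ext n : 2
      rw [hmap_coeff, hmap_coeff, he]
    · rw [RingHom.comp_apply, sub1, eval₂Hom_X', eval_X]
      fin_cases i <;> rfl
  refine (W.hahn ℤ).pow_mem (sub1 φ x y z) _ (fun f hf => ?_) m F hF a
  rw [RingHom.mem_ker, ← hcomp, RingHom.comp_apply] at hf
  exact fun n => hW _ (congrArg (fun y : HahnSeries ℤ K => y.coeff n) hf)

/-- The filtration by powers of an ideal. -/
def idFilt {B : Type} [CommRing B] (I : Ideal B) : Filt B where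
  V k a := a ∈ I ^ k
  top a := by simp
  zero k := zero_mem _
  add := add_mem
  mul hx hy := by rw [pow_add]; exact Ideal.mul_mem_mul hx hy
  anti h hx := Ideal.pow_le_pow_right h hx

theorem shear {ι : Type} [Fintype ι] {u v q k : ℕ} (hu : 0 < u) (hv : 0 < v) (hq : v ≤ q * u)
    {μ : ι → ℕ} (h : KE (wt v (u * q ^ 2) (q * k)) μ 0) : KE (wt u v k) μ 0 := by
  classical
  obtain ⟨P, Q, h⟩ := h
  set g : MvPolynomial (Fin 2) ℂ := X 1 - X 0 ^ q with hg
  set ev : MvPolynomial (Fin 2) ℂ →+* MvPolynomial (Fin 2) ℂ := eval₂Hom C ![X 0, X 0 ^ q]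
    with hev
  have hq0 : 0 < q := Nat.pos_of_ne_zero (by rintro rfl; omega)
  have hdvd : ∀ F, g ∣ F - ev F := by
    intro F
    induction F using MvPolynomial.induction_on with
    | C a => simp [hev]
    | add p r hp hr =>
      rw [map_add, add_sub_add_comm]
      exact dvd_add hp hr
    | mul_X p i hp =>
      have h1 : g ∣ X i - ev (X i) := by fin_cases i <;> simp [hev, hg]
      rw [map_mul, show p * X i - ev p * ev (X i) = (p - ev p) * X i + ev p * (X i - ev (X i)) by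
        ring]
      exact dvd_add (hp.mul_right _) (h1.mul_left _)
  have ht : Finsupp.single 0 q ∈ g.support := by
    rw [mem_support_iff, hg, coeff_sub, X_pow_eq_monomial, coeff_monomial, if_pos rfl, coeff_X,
      if_neg]
    · simp
    · intro e
      simpa using congrArg (fun s : Fin 2 →₀ ℕ => s 1) e
  have hmon : ∀ (l : ℕ) (s : Fin 2 →₀ ℕ) (c : ℂ), X 1 ^ l * ev (monomial s c) =
      monomial (Finsupp.single 0 (s 0 + q * s 1) + Finsupp.single 1 l) c := by
    intro l s c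
    rw [hev, eval₂Hom_monomial, Finsupp.prod_fintype _ _ (by simp), Fin.prod_univ_two,
      monomial_eq, Finsupp.prod_fintype _ _ (by simp), Fin.prod_univ_two]
    simp [pow_add, pow_mul]
    ring
  obtain ⟨p, hp⟩ := Win.Fill.spec (K := HahnSeries ℤ ℂ) (wt u v k) (wt_finite hu hv k)
    (fun i => ![hmap (eval (P i)) (HahnSeries.C (X 0)),
      hmap (eval (P i)) (HahnSeries.C (X 0 ^ q) + HahnSeries.single 1 (X 1))]) μ (by
    intro F hs hF
    by_contra hF0
    obtain ⟨a, Hl, hQ, ⟨l₀, hl₀, hQ₀⟩, hexp⟩ := cone' g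
      (fun j H => u * q * j ≤ k ∧ (∀ s ∈ H.support, s ∈ wt u v (k - u * q * j)) ∧ ev H ≠ 0) k F hF0
      (fun e he => by
        obtain ⟨j, H, e1, e2, e3, e4⟩ := fac ev hu (Nat.mul_pos hu hq0)
          (fun G hG => by simpa [hG] using hdvd G) ht (by simp) k _ he
          fun s h1 => hs s (cf_supp h1)
        exact ⟨j, H, e1, (Nat.le_mul_of_pos_left j (Nat.mul_pos hu hq0)).trans e2, e2, e3, e4⟩)
    have h1 := hexp (MvPolynomial (Fin 2) ℂ) C (X 0) (X 0 ^ q) (X 1) (by simp [hg])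
    have h2 : pderiv 1 g = 1 := by simp [hg]
    simp only [h2, map_one, mul_one, ← hev] at h1
    have h3 : ∀ l, X 1 ^ l * ev (Hl l) = ∑ s ∈ (Hl l).support,
        monomial (Finsupp.single 0 (s 0 + q * s 1) + Finsupp.single 1 l) ((Hl l).coeff s) := by
      intro l
      conv_lhs => rw [(Hl l).as_sum, map_sum, Finset.mul_sum]
      exact Finset.sum_congr rfl fun s _ => hmon l s _
    have h4 : ∀ l t, t ∈ (X 1 ^ l * ev (Hl l)).support → t 1 = l ∧
        t ∈ wt v (u * q ^ 2) (q * k) := by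
      intro l t ht
      rw [h3] at ht
      obtain ⟨s, h5, h6⟩ := Finset.mem_biUnion.1 (support_sum ht)
      rw [Finset.mem_singleton.1 (support_monomial_subset h6)]
      refine ⟨by simp, ?_⟩
      rcases hQ l with h7 | ⟨h7, h8, -⟩
      · simp [h7] at h5
      have h9 : u * s 0 + v * s 1 ≤ k - u * q * l := h8 s h5
      have h10 : q * (u * s 0 + v * s 1 + u * q * l) ≤ q * k := Nat.mul_le_mul_left _ (by omega)
      have h11 := Nat.mul_le_mul_right (s 0) hq
      change v * _ + u * q ^ 2 * _ ≤ _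
      simp only [Finsupp.add_apply, Finsupp.single_eq_same, ne_eq, zero_ne_one, one_ne_zero,
        not_false_eq_true, Finsupp.single_eq_of_ne, add_zero, zero_add]
      nlinarith
    have h5 := h _ (fun s hs => by
        rw [h1] at hs
        obtain ⟨l, -, h6⟩ := Finset.mem_biUnion.1 (support_sum hs)
        exact (h4 l s h6).2)
      (fun i => step C (X 0) (X 0 ^ q) (X 1) (idFilt (RingHom.ker (eval (P i)))) (eval (P i))
        (by simp) (fun b hb => by change b ∈ _ ^ 1; rwa [pow_one]) (hF i) a) fun b => b.elim0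
    obtain ⟨t, ht⟩ := support_nonempty.2 (mul_ne_zero (pow_ne_zero l₀ (X_ne_zero 1)) hQ₀.2.2)
    have h6 := congrArg (coeff t) (h1.symm.trans h5)
    rw [coeff_sum, Finset.sum_eq_single l₀, coeff_zero] at h6
    · exact mem_support_iff.1 ht h6
    · intro l _ hl
      by_contra h7
      exact hl ((h4 l t (mem_support_iff.2 h7)).1.symm.trans (h4 l₀ t ht).1)
    · intro h7
      exact absurd (Finset.mem_range.2 (by omega)) h7)
  exact ⟨p, Q, fun F h1 h2 _ => hp F h1 h2⟩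

lemma ke_four {ι : Type} [Fintype ι] {d : ℕ} {μ : ι → ℕ} (h : KE (wt 1 4 (2 * d)) μ 0) :
    KE (tri (d + 1)) μ 0 := by
  refine (shear (u := 1) (v := 1) (q := 2) one_pos one_pos (by norm_num) h).mono fun s hs => ?_
  have : s 0 + s 1 < d + 1 := hs
  change 1 * s 0 + 1 * s 1 ≤ d
  omega

lemma ke_five {ι : Type} [Fintype ι] {d : ℕ} {μ : ι → ℕ} (h : KE (wt 4 25 (10 * d)) μ 0) :
    KE (tri (d + 1)) μ 0 :=
  ke_four (shear (q := 5) one_pos (by norm_num) (by norm_num) (by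
    rwa [show 5 * (2 * d) = 10 * d by ring]))

end Weights

section Curve

open LaurentPolynomial

/-- The theta function of degree one. -/
noncomputable def th1 (σ : ℝ) : R0 := Tate.th σ 0 + Tate.th σ 1 + Tate.th σ 2

open Classical in
lemma co_th1 (σ γ : ℝ) (n : ℤ) :
    co (th1 σ) γ n = if (n : ℝ) ^ 2 - σ * n = γ then 1 else 0 := by
  rw [th1, co_add, co_add, co_th, co_th, co_th]
  by_cases h : (n : ℝ) ^ 2 - σ * n = γ
  · have : n % 3 = 0 ∨ n % 3 = 1 ∨ n % 3 = 2 := by omega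
    rcases this with h1 | h1 | h1 <;> simp [h, h1]
  · simp [h]

lemma sh1 (σ t : ℝ) : Sh t 0 0 (th1 σ) (th1 (σ - t)) :=
  ((sh_th σ t 0).add (sh_th σ t 1)).add (sh_th σ t 2)

lemma per1 (σ : ℝ) : Sh 2 (1 - σ) 1 (th1 σ) (th1 σ) := by
  intro γ n
  rw [co_th1, co_th1]
  refine if_congr ?_ rfl rfl
  push_cast
  constructor <;> intro h <;> linarith

lemma int_gap (n m : ℤ) : n = m ∨ ((m : ℝ) + 1 ≤ n) ∨ (n : ℝ) + 1 ≤ m := by
  have : n = m ∨ m + 1 ≤ n ∨ n + 1 ≤ m := by omega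
  exact_mod_cast this

lemma lead1 {σ : ℝ} (m : ℤ) (h1 : 2 * m - 1 < σ) (h2 : σ < 2 * m + 1) :
    Lead ((m : ℝ) ^ 2 - σ * m) (T m) (th1 σ) := by
  have key : ∀ n : ℤ, n = m ∨ (m : ℝ) ^ 2 - σ * m < n ^ 2 - σ * n := fun n =>
    (int_gap n m).imp id fun h => by rcases h with h | h <;> nlinarith
  constructor
  · intro γ hγ
    ext n
    change co _ γ n = 0
    rw [co_th1, if_neg]
    rcases key n with rfl | h
    · exact hγ.ne'
    · exact (hγ.trans h).ne'
  · ext n
    change co _ _ n = _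
    rw [co_th1, T_apply]
    refine if_congr ⟨fun h => ?_, ?_⟩ rfl rfl
    · exact ((key n).resolve_right h.not_gt).symm
    · rintro rfl
      rfl

lemma lead2 (m : ℤ) :
    Lead ((m : ℝ) ^ 2 - (2 * m + 1) * m) (T m + T (m + 1)) (th1 (2 * m + 1)) := by
  have key : ∀ n : ℤ, n = m ∨ n = m + 1 ∨
      (m : ℝ) ^ 2 - (2 * m + 1) * m < n ^ 2 - (2 * m + 1) * n := by
    intro n
    rcases int_gap n m with h | h | h
    · exact Or.inl h
    · rcases int_gap n (m + 1) with h1 | h1 | h1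
      · exact Or.inr (Or.inl h1)
      · push_cast at h1
        exact Or.inr (Or.inr (by nlinarith))
      · push_cast at h1
        linarith
    · exact Or.inr (Or.inr (by nlinarith))
  constructor
  · intro γ hγ
    ext n
    change co _ γ n = 0
    rw [co_th1, if_neg]
    rcases key n with rfl | rfl | h
    · exact hγ.ne'
    · push_cast
      linarith
    · exact (hγ.trans h).ne'
  · ext n
    change co _ _ n = _
    rw [co_th1, AddMonoidAlgebra.coeff_add, Finsupp.add_apply, T_apply, T_apply]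
    rcases key n with rfl | rfl | h
    · simp
    · rw [if_pos (by push_cast; ring)]
      simp
    · rw [if_neg h.ne', if_neg, if_neg, add_zero]
      · rintro rfl
        push_cast at h
        linarith
      · rintro rfl
        exact h.false

lemma Lead.inv {f g : R0} (h : Lead 0 1 f) (hg : f * g = 1) : Lead 0 1 g := by
  have h1 := h.mul (lead_order g)
  rw [hg, zero_add, one_mul] at h1
  have h2 : g.coeff g.order ≠ 0 :=
    HahnSeries.coeff_order_eq_zero.not.2 (right_ne_zero_of_mul_eq_one hg)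
  have h3 := h1.2
  rw [HahnSeries.coeff_one] at h3
  split_ifs at h3 with h4
  · have := lead_order g
    rwa [← h3, h4] at this
  · exact absurd h3.symm h2

/-- The inversion of the coordinate. -/
noncomputable def inv0 : R0 →+* R0 := hmap (invert : A ≃ₐ[ℂ] A).toRingEquiv.toRingHom

lemma co_inv0 (f : R0) (γ : ℝ) (n : ℤ) : co (inv0 f) γ n = co f γ (-n) := invert_apply _ _

lemma inv0_th1 (σ : ℝ) : inv0 (th1 σ) = th1 (-σ) := by
  ext γ n
  change co _ γ n = co _ γ n
  rw [co_inv0, co_th1, co_th1]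
  refine if_congr ?_ rfl rfl
  push_cast
  constructor <;> intro h <;> linarith

lemma inv0_κ (c : K0) : inv0 (κ c) = κ c := by
  ext γ n
  change co _ γ n = co _ γ n
  rw [co_inv0, co_κ, co_κ]
  simp

lemma Sh.window {t α : ℝ} {k : ℤ} {f : R0} (hf : Sh t α k f f) {ω : ℝ} (hω : LB ω f) {n : ℤ}
    (hn : co f ω n ≠ 0) : 0 ≤ t * n + α ∧ t * (n - k) + α ≤ 0 := by
  have key : ∀ γ m, co f γ m ≠ 0 → ω ≤ γ := by
    intro γ m h
    refine not_lt.mp fun hlt => h ?_
    simp [co, hω γ hlt]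
  constructor
  · rw [← hf ω n] at hn
    have := key _ _ hn
    linarith
  · have h := hf (ω - t * ((n - k : ℤ) : ℝ) - α) (n - k)
    rw [show ω - t * ((n - k : ℤ) : ℝ) - α + t * ((n - k : ℤ) : ℝ) + α = ω by ring,
      sub_add_cancel] at h
    rw [h] at hn
    have := key _ _ hn
    push_cast at this
    linarith

lemma Sh.vanish {t α : ℝ} {f : R0} (hf : Sh t α 6 f f)
    (h : ∀ n : Fin 6, ∀ γ, co f γ (n : ℕ) = 0) : f = 0 := by
  have step : ∀ n : ℤ, (∀ γ, co f γ n = 0) ↔ ∀ γ, co f γ (n + 6) = 0 := by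
    intro n
    constructor
    · intro h1 γ
      have := hf (γ - t * n - α) n
      rw [h1] at this
      rw [← this]
      congr 1
      ring
    · intro h1 γ
      rw [← hf γ n]
      exact h1 _
  have all : ∀ k : ℤ, ∀ n : Fin 6, ∀ γ, co f γ ((n : ℕ) + 6 * k) = 0 := by
    intro k n
    induction k using Int.induction_on with
    | zero => simpa using h n
    | succ k ih =>
      have := (step _).1 ih
      convert this using 3
      ring
    | pred k ih =>
      refine (step _).2 ?_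
      convert ih using 3
      ring
  refine eq_zero_of_co fun γ n => ?_
  have := all (n / 6) ⟨(n % 6).toNat, by omega⟩ γ
  convert this using 2
  simp only
  omega

lemma rel {t α : ℝ} (M : Fin 7 → R0) (hM : ∀ i, Sh t α 6 (M i) (M i)) :
    ∃ c : Fin 7 → K0, (∃ i, c i ≠ 0) ∧ ∑ i, κ (c i) * M i = 0 := by
  have hdep : ¬ LinearIndependent K0 fun i (n : Fin 6) => prj (n : ℕ) (M i) := by
    intro h
    have := h.fintype_card_le_finrank
    simp at this
  obtain ⟨c, hc, hi⟩ := Fintype.not_linearIndependent_iff.1 hdep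
  refine ⟨c, hi, Sh.vanish (t := t) (α := α) (Sh.sum _ fun i _ => ?_) fun n γ => ?_⟩
  · simpa using (Sh.const t (c i)).mul (hM i)
  · change (prj (n : ℕ) _).coeff γ = 0
    rw [prj_sum]
    simp only [prj_mul]
    have := congrFun hc n
    simp only [Finset.sum_apply, Pi.smul_apply, smul_eq_mul, Pi.zero_apply] at this
    rw [this]
    rfl

/-- Functions with poles of orders at most `a` and `b` at the two marked points. -/
def Th (s : ℝ) (a b : ℕ) (f : R0) : Prop := Sh 2 (a * (1 - s) + b * (1 + s)) (a + b)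
  (f * (th1 s ^ a * th1 (-s) ^ b)) (f * (th1 s ^ a * th1 (-s) ^ b))

lemma Th.const (s : ℝ) (a b : ℕ) (c : K0) : Th s a b (κ c) := by
  have := (Sh.const 2 c).mul (((per1 s).pow a).mul ((per1 (-s)).pow b))
  unfold Th
  convert this using 1 <;> ring

lemma Th.mul {s : ℝ} {a b a' b' : ℕ} {f g : R0} (hf : Th s a b f) (hg : Th s a' b' g) :
    Th s (a + a') (b + b') (f * g) := by
  have := Sh.mul hf hg
  unfold Th
  convert this using 1 <;> push_cast <;> ring

lemma Th.add {s : ℝ} {a b : ℕ} {f g : R0} (hf : Th s a b f) (hg : Th s a b g) :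
    Th s a b (f + g) := by
  have := Sh.add hf hg
  rwa [← add_mul] at this

lemma Th.pow {s : ℝ} {a b : ℕ} {f : R0} (hf : Th s a b f) (k : ℕ) :
    Th s (k * a) (k * b) (f ^ k) := by
  induction k with
  | zero => simpa using Th.const s 0 0 1
  | succ k ih => simpa [add_mul, pow_succ] using ih.mul hf

lemma Th.mono {s : ℝ} {a b a' b' : ℕ} {f : R0} (hf : Th s a b f) (ha : a ≤ a') (hb : b ≤ b') :
    Th s a' b' f := by
  have := hf.mul (Th.const s (a' - a) (b' - b) 1)
  rwa [map_one, mul_one, Nat.add_sub_cancel' ha, Nat.add_sub_cancel' hb] at this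

lemma Th.sum {s : ℝ} {a b : ℕ} {ι : Type} (S : Finset ι) {f : ι → R0}
    (h : ∀ i ∈ S, Th s a b (f i)) : Th s a b (∑ i ∈ S, f i) :=
  Finset.sum_induction f (Th s a b) (fun _ _ => Th.add) (by simpa using Th.const s a b 0) h

lemma lead0 {s : ℝ} (h1 : -1 < s) (h2 : s < 1) : Lead 0 1 (th1 s) := by
  simpa using lead1 (σ := s) 0 (by simpa using h1) (by simpa using h2)

lemma Th.window {s : ℝ} (h1 : -1 < s) (h2 : s < 1) {a b : ℕ} {f : R0} (hf : Th s a b f) {ω : ℝ}
    (hω : LB ω f) {n : ℤ} (hn : co f ω n ≠ 0) :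
    -(a * (1 - s) + b * (1 + s)) ≤ 2 * (n : ℝ) ∧ 2 * (n : ℝ) ≤ a * (1 + s) + b * (1 - s) := by
  have h3 := Lead.mul (⟨hω, rfl⟩ : Lead ω _ f) (((lead0 h1 h2).pow a).mul
    ((lead0 (s := -s) (by linarith) (by linarith)).pow b))
  simp only [smul_zero, add_zero, one_pow, mul_one] at h3
  have h4 := Sh.window hf h3.1 (n := n) (by rwa [co, h3.2])
  push_cast at h4
  constructor <;> linarith [h4.1, h4.2]

/-- Evaluation at a point of the torus. -/
noncomputable def evA (c : ℂˣ) : A →+* ℂ := LaurentPolynomial.eval₂ (RingHom.id ℂ) c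

lemma evA_κ (c : ℂˣ) (a : K0) : hmap (evA c) (κ a) = a := by
  ext γ
  simp [κ, hmap_coeff, evA]

lemma evA_inv (c : ℂˣ) (f : R0) : hmap (evA c) (inv0 f) = hmap (evA c⁻¹) f := by
  ext γ
  change evA c (invert (f.coeff γ)) = evA c⁻¹ (f.coeff γ)
  induction f.coeff γ using LaurentPolynomial.induction_on' with
  | add p q hp hq => simp only [map_add, hp, hq]
  | C_mul_T n a => simp [evA]

/-- The nodes. -/
noncomputable def cc (k : ℕ) : ℂˣ := Units.mk0 (k + 2) (by exact_mod_cast (by omega : k + 2 ≠ 0))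

lemma cc_inj {x : R0} (hx : x.coeff 0 = (T 0 + T 1) * (T (-1) + T 0)) :
    Function.Injective fun k => hmap (evA (cc k)) x := by
  intro k l h
  have h1 := congrArg (fun y : K0 => y.coeff 0) h
  simp only [hmap_coeff, hx, evA, map_mul, map_add, eval₂_T, cc, zpow_zero, zpow_one, zpow_neg,
    Units.val_one, Units.val_inv_eq_inv_val, Units.val_mk0] at h1
  have h2 : ∀ k : ℕ, (k : ℂ) + 2 ≠ 0 := fun k => (cc k).ne_zero
  have h3 : ((k : ℂ) - l) * (((k + 2) * (l + 2) : ℕ) - 1) = 0 := by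
    have := h2 k
    have := h2 l
    field_simp at h1
    push_cast
    linear_combination h1
  rcases mul_eq_zero.1 h3 with h4 | h4
  · exact_mod_cast sub_eq_zero.1 h4
  · have h5 : (k + 2) * (l + 2) = 1 := by exact_mod_cast sub_eq_zero.1 h4
    nlinarith

lemma not_unit : ¬ IsUnit (th1 1) := by
  intro h
  obtain ⟨g, hg⟩ := h.exists_right_inv
  have h0 := lead2 0
  simp only [Int.cast_zero, mul_zero, zero_add] at h0
  have h1 := (h0.mul (lead_order g)).2
  rw [hg, HahnSeries.coeff_one] at h1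
  split_ifs at h1
  · simpa [evA] using congrArg (evA (-1)) h1
  · refine mul_ne_zero (fun e => ?_) (HahnSeries.coeff_order_eq_zero.not.2
      (right_ne_zero_of_mul_eq_one hg)) h1.symm
    have := congrArg (evA 1) e
    simp [evA] at this

theorem curve {s : ℝ} (h0 : 0 < s) (h1 : s < 1) : ∃ (x z : R0) (B D : Polynomial K0),
    z ^ 2 + B.eval₂ κ x * z + D.eval₂ κ x = 0 ∧ 2 ≤ B.natDegree ∧ Th s 1 1 x ∧ Th s 0 2 z ∧
    inv0 x = x ∧ (Function.Injective fun k => hmap (evA (cc k)) x) ∧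
    ∀ p q : Polynomial K0, p.eval₂ κ x + q.eval₂ κ x * z = 0 → p = 0 ∧ q = 0 := by
  have la := lead0 (s := s) (by linarith) h1
  have lb := lead0 (s := -s) (by linarith) (by linarith)
  obtain ⟨a', ha⟩ := (la.isUnit isUnit_one).exists_right_inv
  obtain ⟨b', hb⟩ := (lb.isUnit isUnit_one).exists_right_inv
  set M : ℝ → Fin 7 → R0 := fun t =>
    let a := th1 (s - t)
    let b := th1 (-s - t)
    let X := th1 (1 - t) * th1 (-1 - t)
    let Z := th1 (1 - s - t) * th1 (-1 - s - t)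
    ![a ^ 2 * b ^ 4, X * a * b ^ 3, X ^ 2 * b ^ 2, a ^ 2 * b ^ 2 * Z, X * a * b * Z, X ^ 2 * Z,
      Z ^ 2 * a ^ 2] with hM
  have pa := per1 s
  have pb := per1 (-s)
  have pX := (per1 1).mul (per1 (-1))
  have pZ := (per1 (1 - s)).mul (per1 (-1 - s))
  obtain ⟨c, hc0, hc⟩ := rel (t := 2) (α := 6 + 2 * s) (M 0) (by
    intro i
    fin_cases i <;> simp only [hM, sub_zero]
    · convert (pa.pow 2).mul (pb.pow 4) using 1 <;> first | rfl | (push_cast; ring)
    · convert (pX.mul pa).mul (pb.pow 3) using 1 <;> first | rfl | (push_cast; ring)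
    · convert (pX.pow 2).mul (pb.pow 2) using 1 <;> first | rfl | (push_cast; ring)
    · convert ((pa.pow 2).mul (pb.pow 2)).mul pZ using 1 <;> first | rfl | (push_cast; ring)
    · convert ((pX.mul pa).mul pb).mul pZ using 1 <;> first | rfl | (push_cast; ring)
    · convert (pX.pow 2).mul pZ using 1 <;> first | rfl | (push_cast; ring)
    · convert (pZ.pow 2).mul (pa.pow 2) using 1 <;> first | rfl | (push_cast; ring))
  have hsh : ∀ t, Sh t 0 0 (∑ i, κ (c i) * M 0 i) (∑ i, κ (c i) * M t i) := by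
    intro t
    have qa := sh1 s t
    have qb := sh1 (-s) t
    have qX := (sh1 1 t).mul (sh1 (-1) t)
    have qZ := (sh1 (1 - s) t).mul (sh1 (-1 - s) t)
    refine Sh.sum _ fun i _ => ?_
    suffices h : Sh t 0 0 (M 0 i) (M t i) by simpa using (Sh.const t (c i)).mul h
    fin_cases i <;> simp only [hM, sub_zero]
    · simpa using (qa.pow 2).mul (qb.pow 4)
    · simpa using (qX.mul qa).mul (qb.pow 3)
    · simpa using (qX.pow 2).mul (qb.pow 2)
    · simpa using ((qa.pow 2).mul (qb.pow 2)).mul qZ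
    · simpa using ((qX.mul qa).mul qb).mul qZ
    · simpa using (qX.pow 2).mul qZ
    · simpa using (qZ.pow 2).mul (qa.pow 2)
  have hc' := (hsh (-s - 1)).eq_zero_iff.1 hc
  set x := th1 1 * th1 (-1) * a' * b' with hx
  set z := th1 (1 - s) * th1 (-1 - s) * b' ^ 2 with hz
  have hX : th1 1 * th1 (-1) = x * (th1 s * th1 (-s)) := by
    rw [hx]
    linear_combination (-(th1 1 * th1 (-1))) * ha - (th1 1 * th1 (-1)) * (th1 s * a') * hb
  have hZ : th1 (1 - s) * th1 (-1 - s) = z * th1 (-s) ^ 2 := by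
    rw [hz, mul_assoc _ (b' ^ 2), ← mul_pow, mul_comm b', hb, one_pow, mul_one]
  have hab : th1 s * th1 (-s) ≠ 0 :=
    mul_ne_zero (left_ne_zero_of_mul_eq_one ha) (left_ne_zero_of_mul_eq_one hb)
  have hix : inv0 x = x := by
    have := congrArg inv0 hX
    simp only [map_mul, inv0_th1, neg_neg] at this
    rw [mul_comm (th1 (-1)), hX, mul_comm (th1 (-s))] at this
    exact (mul_right_cancel₀ hab this).symm
  have hlx : x.coeff 0 = (T 0 + T 1) * (T (-1) + T 0) := by
    have := ((((lead2 0).mul (lead2 (-1))).mul (Lead.inv la ha)).mul (Lead.inv lb hb)).2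
    norm_num at this
    simpa [hx] using this
  have hlz : z.coeff (-s) = T (-1) := by
    have := (((lead0 (s := 1 - s) (by linarith) (by linarith)).mul (lead1 (σ := -1 - s) (-1)
      (by push_cast; linarith) (by push_cast; linarith))).mul ((Lead.inv lb hb).pow 2)).2
    rw [show (0 : ℝ) + (((-1 : ℤ) : ℝ) ^ 2 - (-1 - s) * (-1 : ℤ)) + 2 • (0 : ℝ) = -s by
      push_cast; ring] at this
    simpa [hz] using this
  have hiz : z - inv0 z ≠ 0 := by
    intro e
    have h2 := co_inv0 z (-s) 1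
    rw [← sub_eq_zero.1 e, co, co, hlz] at h2
    simp [T_apply] at h2
  have hinj := cc_inj hlx
  have htr : ∀ p : Polynomial K0, p.eval₂ κ x = 0 → p = 0 := by
    intro p hp
    refine p.eq_zero_of_infinite_isRoot (Set.infinite_of_injective_forall_mem hinj fun k => ?_)
    have := congrArg (hmap (evA (cc k))) hp
    rwa [Polynomial.hom_eval₂, map_zero, show (hmap (evA (cc k))).comp κ = RingHom.id _ from
      RingHom.ext (evA_κ _)] at this
  have hind : ∀ p q : Polynomial K0, p.eval₂ κ x + q.eval₂ κ x * z = 0 → p = 0 ∧ q = 0 := by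
    intro p q h
    have h2 := congrArg inv0 h
    rw [map_add, map_mul, Polynomial.hom_eval₂, Polynomial.hom_eval₂, map_zero, hix,
      show inv0.comp κ = κ from RingHom.ext inv0_κ] at h2
    have h3 : q.eval₂ κ x = 0 :=
      (mul_eq_zero.1 (by linear_combination h - h2)).resolve_right hiz
    exact ⟨htr p (by simpa [h3] using h), htr q h3⟩
  set p : Polynomial K0 := .C (c 0) + .C (c 1) * .X + .C (c 2) * .X ^ 2 with hp
  set q : Polynomial K0 := .C (c 3) + .C (c 4) * .X + .C (c 5) * .X ^ 2 with hq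
  have hrel : p.eval₂ κ x + q.eval₂ κ x * z + κ (c 6) * z ^ 2 = 0 := by
    refine mul_left_cancel₀ (mul_ne_zero (pow_ne_zero 2 hab)
      (pow_ne_zero 2 (right_ne_zero_of_mul hab))) ?_
    rw [mul_zero, ← hc, Fin.sum_univ_seven]
    simp [hM, hX, hZ, hp, hq, Polynomial.eval₂_add, Polynomial.eval₂_mul, Polynomial.eval₂_pow]
    ring
  have h6 : c 6 ≠ 0 := by
    intro e
    obtain ⟨e1, e2⟩ := hind p q (by simpa [e] using hrel)
    obtain ⟨i, hi⟩ := hc0
    have f := fun n => congrArg (fun r : Polynomial K0 => r.coeff n) e1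
    have g := fun n => congrArg (fun r : Polynomial K0 => r.coeff n) e2
    refine hi ?_
    fin_cases i
    · simpa [hp] using f 0
    · simpa [hp, Polynomial.coeff_C] using f 1
    · simpa [hp, Polynomial.coeff_C, Polynomial.coeff_X] using f 2
    · simpa [hq] using g 0
    · simpa [hq, Polynomial.coeff_C] using g 1
    · simpa [hq, Polynomial.coeff_C, Polynomial.coeff_X] using g 2
    · exact e
  have h5 : c 5 ≠ 0 := by
    intro e
    rw [Fin.sum_univ_seven] at hc'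
    simp only [hM, show -s - (-s - 1) = 1 by ring, show 1 - s - (-s - 1) = 2 by ring,
      show -1 - s - (-s - 1) = 0 by ring, e, map_zero, zero_mul] at hc'
    have u1 := (lead1 (σ := s - (-s - 1)) 1 (by push_cast; linarith)
      (by push_cast; linarith)).isUnit (isUnit_T _)
    have u2 := (lead1 (σ := 2) 1 (by norm_num) (by norm_num)).isUnit (isUnit_T _)
    have u3 := (lead0 (s := 0) (by norm_num) (by norm_num)).isUnit isUnit_one
    refine not_unit (isUnit_of_dvd_unit ?_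
      ((h6.isUnit.map κ).mul (((u2.mul u3).pow 2).mul (u1.pow 2))))
    simp at hc'
    refine (dvd_add_right (dvd_add (dvd_add (dvd_add (dvd_add ?_ ?_) ?_) ?_) ?_)).1
      (hc'.symm ▸ dvd_zero _)
    · exact ((dvd_pow_self _ (by norm_num)).mul_left _).mul_left _
    · exact ((dvd_pow_self _ (by norm_num)).mul_left _).mul_left _
    · exact ((dvd_pow_self _ (by norm_num)).mul_left _).mul_left _
    · exact (((dvd_pow_self _ (by norm_num)).mul_left _).mul_right _).mul_left _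
    · exact ((dvd_mul_left _ _).mul_right _).mul_left _
  have h7 : κ (c 6)⁻¹ * κ (c 6) = 1 := by rw [← map_mul, inv_mul_cancel₀ h6, map_one]
  refine ⟨x, z, .C (c 6)⁻¹ * q, .C (c 6)⁻¹ * p, ?_, Polynomial.le_natDegree_of_ne_zero ?_, ?_, ?_,
    hix, hinj, hind⟩
  · rw [Polynomial.eval₂_mul, Polynomial.eval₂_mul, Polynomial.eval₂_C]
    linear_combination κ (c 6)⁻¹ * hrel - z ^ 2 * h7
  · simpa [hq, Polynomial.coeff_C, Polynomial.coeff_X, h6] using h5
  · unfold Th
    rw [pow_one, pow_one, ← hX]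
    convert pX using 1 <;> push_cast <;> ring
  · unfold Th
    rw [pow_zero, one_mul, ← hZ]
    convert pZ using 1 <;> push_cast <;> ring

end Curve

section Core

open MvPolynomial

/-- Polynomials in the first variable. -/
noncomputable def i0 {K : Type} [CommRing K] : Polynomial K →+* MvPolynomial (Fin 2) K :=
  Polynomial.eval₂RingHom C (X 0)

lemma i0_monomial {K : Type} [CommRing K] (n : ℕ) (a : K) :
    i0 (Polynomial.monomial n a) = monomial (Finsupp.single 0 n) a := by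
  rw [i0, Polynomial.coe_eval₂RingHom, Polynomial.eval₂_monomial, C_mul_X_pow_eq_monomial]

lemma coeff_i0 {K : Type} [CommRing K] (r : Polynomial K) (s : Fin 2 →₀ ℕ) :
    (i0 r).coeff s = if s 1 = 0 then r.coeff (s 0) else 0 := by
  induction r using Polynomial.induction_on' with
  | add p q hp hq =>
    rw [map_add, coeff_add, hp, hq]
    split_ifs <;> simp
  | monomial n a =>
    rw [i0_monomial, coeff_monomial, Polynomial.coeff_monomial, ← ite_and]
    refine if_congr ⟨?_, fun h => ?_⟩ rfl rfl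
    · rintro rfl
      simp
    · ext i
      fin_cases i
      · simpa using h.2
      · simpa using h.1.symm

lemma pderiv_i0 {K : Type} [CommRing K] (r : Polynomial K) : pderiv 1 (i0 r) = 0 := by
  ext s
  simp [coeff_pderiv, coeff_i0]

lemma ev_i0 {K B : Type} [CommRing K] [CommRing B] (φ : K →+* B) (x y : B) (r : Polynomial K) :
    eval₂Hom φ ![x, y] (i0 r) = r.eval₂ φ x := by
  rw [i0, Polynomial.coe_eval₂RingHom, Polynomial.hom_eval₂]
  congr 1
  · ext c
    simp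
  · simp

lemma quad_div {K : Type} [CommRing K] (b c : Polynomial K) (F : MvPolynomial (Fin 2) K) :
    ∃ p q, X 1 ^ 2 + i0 b * X 1 + i0 c ∣ F - (i0 p + i0 q * X 1) := by
  induction F using MvPolynomial.induction_on with
  | C a => exact ⟨.C a, 0, by simp [i0]⟩
  | add F G hF hG =>
    obtain ⟨p, q, h⟩ := hF
    obtain ⟨p', q', h'⟩ := hG
    refine ⟨p + p', q + q', ?_⟩
    convert dvd_add h h' using 1
    rw [map_add, map_add]
    ring
  | mul_X F i hF =>
    obtain ⟨p, q, h⟩ := hF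
    fin_cases i
    · refine ⟨p * .X, q * .X, ?_⟩
      convert h.mul_right (X 0) using 1
      simp [i0]
      ring
    · refine ⟨-(q * c), p - q * b, ?_⟩
      convert dvd_add (h.mul_right (X 1)) (dvd_mul_left _ (i0 q)) using 1
      simp
      ring

lemma pow_cancel {S : Type} [CommRing S] [IsDomain S] {ϖ t H : S} (hp : Prime ϖ) (ht : ¬ ϖ ∣ t)
    {ν e : ℕ} (h : ϖ ^ ν ∣ (ϖ ^ 2 * t) ^ e * H) : ϖ ^ (ν - 2 * e) ∣ H := by
  rcases le_total ν (2 * e) with h1 | h1
  · simp [Nat.sub_eq_zero_of_le h1]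
  refine hp.pow_dvd_of_dvd_mul_left (a := t ^ e) _ (fun h2 => ht (hp.dvd_of_dvd_pow h2)) ?_
  rw [← mul_dvd_mul_iff_left (pow_ne_zero (2 * e) hp.ne_zero), ← pow_add, Nat.add_sub_cancel' h1,
    ← mul_assoc, pow_mul, ← mul_pow]
  exact h

lemma node_lem {K S : Type} [Field K] [CommRing S] (φ : K →+* S) (x z : S) {N N' B D : Polynomial K}
    {ξ : K} (hN : N = (.X - .C ξ) * N') (hN' : N'.eval ξ ≠ 0) {ν j : ℕ}
    {H : MvPolynomial (Fin 2) K} (hH : (X 1 ^ 2 + i0 (N * B) * X 1 + i0 (N ^ 2 * D)) ^ j * H ∈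
      RingHom.ker (eval ![ξ, 0]) ^ ν) :
    (x - φ ξ) ^ (ν - 2 * j) ∣ eval₂Hom φ ![x, N.eval₂ φ x * z] H := by
  set ψ : MvPolynomial (Fin 2) K →+* Polynomial (Polynomial K) :=
    eval₂Hom (Polynomial.C.comp Polynomial.C) ![.C .X, .C N * .X] with hψ
  have hψi : ∀ r, ψ (i0 r) = .C r := fun r => by
    rw [hψ, ev_i0, ← Polynomial.hom_eval₂, Polynomial.eval₂_C_X]
  have hp : Prime (Polynomial.C (.X - .C ξ) : Polynomial (Polynomial K)) :=
    Polynomial.prime_C_iff.2 (Polynomial.prime_X_sub_C _)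
  have h2 := (powFilt (Polynomial.C (.X - .C ξ))).pow_mem ψ _ (fun f hf => by
    change _ ^ 1 ∣ _
    rw [pow_one, Polynomial.C_dvd_iff_dvd_coeff]
    intro l
    have h3 : (Polynomial.mapRingHom (Polynomial.evalRingHom ξ)).comp ψ =
        Polynomial.C.comp (eval ![ξ, 0]) := by
      refine MvPolynomial.ringHom_ext (fun c => by simp [hψ]) fun l => ?_
      fin_cases l
      · simp [hψ]
      · simp [hψ, hN]
    have h4 := congrArg (fun r => r.coeff l) (RingHom.congr_fun h3 f)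
    rw [RingHom.mem_ker] at hf
    rw [Polynomial.dvd_iff_isRoot]
    simpa [hf] using h4) ν _ hH
  have hψg : ψ (X 1 ^ 2 + i0 (N * B) * X 1 + i0 (N ^ 2 * D)) =
      .C (.X - .C ξ) ^ 2 * (.C N' ^ 2 * (.X ^ 2 + .C B * .X + .C D)) := by
    simp only [map_add, map_mul ψ, map_pow ψ, hψi]
    simp [hψ, hN]
    ring
  rw [map_mul, map_pow, hψg] at h2
  have h3 := map_dvd (Polynomial.eval₂RingHom (Polynomial.eval₂RingHom φ x) z)
    (pow_cancel hp (fun h => ?_) h2)
  · have h4 : (Polynomial.eval₂RingHom (Polynomial.eval₂RingHom φ x) z).comp ψ =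
        eval₂Hom φ ![x, N.eval₂ φ x * z] := by
      refine MvPolynomial.ringHom_ext (fun c => by simp [hψ]) fun l => ?_
      fin_cases l <;> simp [hψ]
    rw [map_pow] at h3
    rw [← h4]
    simpa [Polynomial.eval₂_sub] using h3
  rcases hp.dvd_or_dvd h with h | h
  · have h4 := (Polynomial.C_dvd_iff_dvd_coeff _ _).1 (hp.dvd_of_dvd_pow h) 0
    rw [Polynomial.coeff_C_zero, Polynomial.dvd_iff_isRoot] at h4
    exact hN' h4
  · have h4 := (Polynomial.C_dvd_iff_dvd_coeff _ _).1 h 2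
    simp only [Polynomial.coeff_add, Polynomial.coeff_X_pow, Polynomial.coeff_C_mul,
      Polynomial.coeff_X, Polynomial.coeff_C] at h4
    exact (Polynomial.prime_X_sub_C _).not_dvd_one (by simpa using h4)

lemma const_loc (c : ℂˣ) (a : A) : PowerSeries.constantCoeff (loc c a) = evA c a := by
  refine RingHom.congr_fun (IsLocalization.ringHom_ext (Submonoid.powers (Polynomial.X : Polynomial ℂ))
    (j := PowerSeries.constantCoeff.comp (loc c)) (k := evA c) (RingHom.ext fun p => ?_)) a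
  simp only [RingHom.comp_apply, LaurentPolynomial.algebraMap_eq_toLaurent, loc_toLaurent, evA,
    LaurentPolynomial.eval₂_toLaurent, Polynomial.eval₂_id]
  simp [← PowerSeries.coeff_zero_eq_constantCoeff_apply]

lemma node_dvd {x f : R0} (c : ℂˣ) {m : ℕ} (h : (x - κ (hmap (evA c) x)) ^ m ∣ f) (ω : ℝ) :
    PowerSeries.X ^ m ∣ loc c (f.coeff ω) := by
  obtain ⟨g, rfl⟩ := h
  set W := (powFilt (PowerSeries.X : PowerSeries ℂ)).hahn ℝ with hW
  have h1 : W.V 1 (hmap (loc c) (x - κ (hmap (evA c) x))) := by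
    intro γ
    change PowerSeries.X ^ 1 ∣ _
    rw [pow_one, PowerSeries.X_dvd_iff, hmap_coeff, const_loc, ← hmap_coeff, map_sub, evA_κ,
      sub_self]
    rfl
  have h2 := W.mul (filt_pow W h1 m) (W.top (hmap (loc c) g))
  rw [← map_pow, ← map_mul] at h2
  exact h2 ω

lemma unit_step (w : ℂˣ) (u : ℂ) (x y : R0) (g : MvPolynomial (Fin 2) K0)
    (hg : eval₂Hom κ ![x, y] g = 0)
    (hβ : IsUnit (hmap (loc w) (eval₂Hom κ ![x, y] (pderiv 1 g)))) :
    ∃ P : Fin 2 → HahnSeries ℤ K0, ∀ (d m : ℕ) (F : MvPolynomial (Fin 2) (HahnSeries ℤ K0))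
      (a : ℤ) (Hl : ℕ → MvPolynomial (Fin 2) K0), F ∈ RingHom.ker (eval P) ^ m →
      (∀ (B : Type) [CommRing B] (φ : K0 →+* B) (x₀ x₁ z : B), eval₂Hom φ ![x₀, x₁] g = 0 →
        (sub1 φ x₀ x₁ z F).coeff a = ∑ l ∈ Finset.range (d + 1),
          (z * eval₂Hom φ ![x₀, x₁] (pderiv 1 g)) ^ l * eval₂Hom φ ![x₀, x₁] (Hl l)) →
      ∀ (ω : ℝ) (k : ℕ), PowerSeries.X ^ (m - k) ∣ loc w
        ((Polynomial.taylor (LaurentPolynomial.C u) (∑ l ∈ Finset.range (d + 1),
          Polynomial.monomial l ((eval₂Hom κ ![x, y] (Hl l)).coeff ω))).coeff k) := by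
  obtain ⟨b, hb⟩ := hβ.exists_right_inv
  set ψ : R0 →+* Polynomial (HahnSeries ℝ (PowerSeries ℂ)) := Polynomial.C.comp (hmap (loc w))
    with hψ
  have hev : ∀ G : MvPolynomial (Fin 2) K0,
      eval₂Hom (ψ.comp κ) ![ψ x, ψ y] G = ψ (eval₂Hom κ ![x, y] G) := by
    refine RingHom.congr_fun (g := ψ.comp (eval₂Hom κ ![x, y]))
      (MvPolynomial.ringHom_ext (by simp) fun i => ?_)
    fin_cases i <;> simp
  set e := (hmap (Γ := ℝ) (PowerSeries.constantCoeff (R := ℂ))).comp Polynomial.constantCoeff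
    with he
  set z := (Polynomial.X + Polynomial.C (HahnSeries.C (PowerSeries.C u))) * Polynomial.C b with hz
  refine ⟨![hmap e (HahnSeries.C (ψ x)), hmap e (HahnSeries.C (ψ y) + HahnSeries.single 1 z)],
    fun d m F a Hl hF hexp ω k => ?_⟩
  have h1 := step (ψ.comp κ) (ψ x) (ψ y) z ((powFilt PowerSeries.X).hahn ℝ).poly e
    (fun c => by ext γ; simp [he, hψ, κ, hmap_coeff, loc_C]) (fun p hp i => by
      rcases Nat.eq_zero_or_pos i with rfl | hi
      · intro γ
        change PowerSeries.X ^ 1 ∣ _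
        rw [pow_one, PowerSeries.X_dvd_iff]
        exact congrArg (fun y : K0 => y.coeff γ) hp
      · rw [show 1 - i = 0 by omega]
        exact Filt.top _ _) hF a
  rw [hexp _ _ _ _ _ (by rw [hev, hg, map_zero])] at h1
  have h2 : z * eval₂Hom (ψ.comp κ) ![ψ x, ψ y] (pderiv 1 g) =
      Polynomial.X + Polynomial.C (HahnSeries.C (PowerSeries.C u)) := by
    rw [hev, hz, mul_assoc, hψ, RingHom.comp_apply, ← map_mul, mul_comm b, hb, map_one, mul_one]
  simp only [h2] at h1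
  simp only [hev] at h1
  have h3 : PowerSeries.X ^ (m - k) ∣ _ := h1 k ω
  convert h3 using 1
  rw [map_sum, Polynomial.finsetSum_coeff, map_sum, Polynomial.finsetSum_coeff,
    HahnSeries.coeff_sum]
  refine Finset.sum_congr rfl fun l _ => ?_
  rw [Polynomial.taylor_monomial, Polynomial.coeff_C_mul, Polynomial.coeff_X_add_C_pow, hψ,
    RingHom.comp_apply, Polynomial.coeff_mul_C, Polynomial.coeff_X_add_C_pow,
    ← map_pow HahnSeries.C,
    ← map_natCast (HahnSeries.C : PowerSeries ℂ →+* HahnSeries ℝ (PowerSeries ℂ)),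
    ← map_mul HahnSeries.C, HahnSeries.C_apply, HahnSeries.coeff_single_zero_mul, hmap_coeff]
  simp only [map_mul, map_pow, map_natCast, loc_C]
  ring

theorem coreH {s : ℝ} (h0 : 0 < s) (h1 : s < 1) {n u v : ℕ} (hu : 0 < u) (hn : u * n ≤ v)
    (hv : v ≤ u * (n + 2)) (hv0 : 0 < v) : ∃ p : Polynomial ℂ, p ≠ 0 ∧
    ∀ {ι : Type} (w : ι → ℂˣ) (y : ι → ℂ), (∀ i, p.eval (w i : ℂ) ≠ 0) →
    ∃ P : Fin n ⊕ ι → Fin 2 → HahnSeries ℤ K0, ∀ (μ : Fin n ⊕ ι → ℕ) (k : ℕ),
      (∀ Φ : Polynomial A,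
        (∀ (l : ℕ) (m : ℤ), (Φ.coeff l).coeff m ≠ 0 → ∃ a b : ℕ,
          u * a + (u * (n + 2) + v) * l ≤ k ∧
          v * b + (n + 2) * ((u * (n + 2) + v) * l) ≤ (n + 2) * k ∧
          -(a * (1 - s) + b * (1 + s)) ≤ 2 * (m : ℝ) ∧ 2 * (m : ℝ) ≤ a * (1 + s) + b * (1 - s)) →
        (∀ i j, PowerSeries.X ^ (μ (Sum.inr i) - j) ∣
          loc (w i) ((Polynomial.taylor (LaurentPolynomial.C (y i)) Φ).coeff j)) →
        (∀ (i : Fin n) l, PowerSeries.X ^ (μ (Sum.inl i) - 2 * l) ∣ loc (cc i) (Φ.coeff l) ∧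
          PowerSeries.X ^ (μ (Sum.inl i) - 2 * l) ∣ loc (cc i)⁻¹ (Φ.coeff l)) → Φ = 0) →
      ∀ F : MvPolynomial (Fin 2) (HahnSeries ℤ K0), (∀ t ∈ F.support, t ∈ wt u v k) →
        (∀ i, F ∈ RingHom.ker (eval (P i)) ^ μ i) → F = 0 := by
  classical
  obtain ⟨x, z, B, D, hrel, hB, tx, tz, hix, hinj, hind⟩ := curve h0 h1
  set ξ : ℕ → K0 := fun k => hmap (evA (cc k)) x with hξ
  set N : Polynomial K0 := ∏ i : Fin n, (.X - .C (ξ i)) with hN
  have hNm : N.Monic := Polynomial.monic_prod_of_monic _ _ fun i _ => Polynomial.monic_X_sub_C _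
  have hNd : N.natDegree = n := by
    rw [hN, Polynomial.natDegree_prod_of_monic _ _ fun i _ => Polynomial.monic_X_sub_C _]
    simp
  have hB0 : B ≠ 0 := fun e => by simp [e] at hB
  set g : MvPolynomial (Fin 2) K0 := X 1 ^ 2 + i0 (N * B) * X 1 + i0 (N ^ 2 * D) with hg
  set ev : MvPolynomial (Fin 2) K0 →+* R0 := eval₂Hom κ ![x, N.eval₂ κ x * z] with hev
  have hevi : ∀ r, ev (i0 r) = r.eval₂ κ x := fun r => ev_i0 _ _ _ r
  have hev1 : ev (X 1) = N.eval₂ κ x * z := by simp [hev]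
  have hg0 : ev g = 0 := by
    simp only [hg, map_add, map_mul ev, map_pow ev, hevi, hev1, Polynomial.eval₂_mul,
      Polynomial.eval₂_pow]
    linear_combination N.eval₂ κ x ^ 2 * hrel
  have hprime : ∀ F, ev F = 0 → g ∣ F := by
    intro F hF
    obtain ⟨p, q, h⟩ := quad_div (N * B) (N ^ 2 * D) F
    have h2 := map_dvd ev h
    rw [← hg, hg0, zero_dvd_iff, map_sub, hF, zero_sub, neg_eq_zero, map_add, map_mul, hevi, hevi,
      hev1, ← mul_assoc, ← Polynomial.eval₂_mul] at h2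
    obtain ⟨rfl, h3⟩ := hind _ _ h2
    rwa [(mul_eq_zero.1 h3).resolve_right hNm.ne_zero, map_zero, zero_mul, add_zero,
      sub_zero] at h
  have ht : Finsupp.single 0 (N * B).natDegree + Finsupp.single 1 1 ∈ g.support := by
    rw [mem_support_iff, hg, coeff_add, coeff_add, coeff_mul_X, coeff_i0, coeff_i0,
      X_pow_eq_monomial, coeff_monomial, if_neg]
    · simpa using mul_ne_zero hNm.ne_zero hB0
    · intro e
      simpa using congrArg (fun s : Fin 2 →₀ ℕ => s 1) e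
  have hβ : ev (pderiv 1 g) ≠ 0 := by
    intro e
    have h2 : pderiv 1 g = i0 (N * B) + i0 2 * X 1 := by
      simp only [hg, map_add, pderiv_i0, pderiv_mul, pderiv_pow, pderiv_X_self, map_ofNat]
      ring
    rw [h2, map_add, map_mul ev, hevi, hevi, hev1, ← mul_assoc, ← Polynomial.eval₂_mul] at e
    exact mul_ne_zero hNm.ne_zero hB0 (hind _ _ e).1
  have tN : Th s n (n + 2) (N.eval₂ κ x * z) := by
    refine Th.mul (a' := 0) ?_ tz
    rw [Polynomial.eval₂_eq_sum_range, hNd]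
    refine Th.sum _ fun i hi => ?_
    have := Finset.mem_range.1 hi
    exact ((Th.const s 0 0 _).mul (tx.pow i)).mono (by omega) (by omega)
  have hnode : ∀ (i : Fin n) {ν j : ℕ} {H : MvPolynomial (Fin 2) K0},
      g ^ j * H ∈ RingHom.ker (eval ![ξ i, 0]) ^ ν → (x - κ (ξ i)) ^ (ν - 2 * j) ∣ ev H := by
    intro i ν j H hH
    have hN' : N = (.X - .C (ξ i)) * ∏ l ∈ Finset.univ.erase i, (.X - .C (ξ l)) :=
      (Finset.mul_prod_erase _ _ (Finset.mem_univ i)).symm
    rw [hg] at hH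
    refine node_lem κ x z hN' (fun h => ?_) hH
    rw [Polynomial.eval_prod, Finset.prod_eq_zero_iff] at h
    obtain ⟨l, h5, h6⟩ := h
    rw [Polynomial.eval_sub, Polynomial.eval_X, Polynomial.eval_C, sub_eq_zero] at h6
    exact (Finset.mem_erase.1 h5).1 (Fin.ext (hinj h6).symm)
  obtain ⟨p, hp, hbad⟩ := exists_bad (HahnSeries.coeff_order_eq_zero.not.2 hβ)
  refine ⟨p, hp, fun {ι} w y hw => ?_⟩
  choose P hP using fun i => unit_step (w i) (y i) x _ g hg0
    (((lead_order _).hmap (loc (w i))).isUnit (hbad _ (hw i)))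
  refine ⟨Sum.elim (fun i k => HahnSeries.C (![ξ i, 0] k)) P, fun μ k hΦ F hs hF => ?_⟩
  by_contra hF0
  set e := u * (n + 2) + v with he
  obtain ⟨a, Hl, hQ, ⟨l₀, hl₀, hQ₀⟩, hexp⟩ := cone' g
    (fun j H => e * j ≤ k ∧ (∀ t ∈ H.support, t ∈ wt u v (k - e * j)) ∧ ev H ≠ 0 ∧
      ∀ i : Fin n, (x - κ (ξ i)) ^ (μ (Sum.inl i) - 2 * j) ∣ ev H) k F hF0 (fun c hc => by
      obtain ⟨j, H, e1, e2, e3, e4⟩ := fac ev (e := e) hu (by omega) hprime ht (by
        have := Nat.mul_le_mul_left u (show n + 2 ≤ (N * B).natDegree by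
          rw [Polynomial.natDegree_mul hNm.ne_zero hB0]; omega)
        simpa using by omega) k _ hc fun t h2 => hs t (cf_supp h2)
      exact ⟨j, H, e1, (Nat.le_mul_of_pos_left j (by omega)).trans e2, e2, e3, e4,
        fun i => hnode i (e1 ▸ cf_mem (hF (Sum.inl i)) c)⟩)
  set f : ℕ → R0 := fun l => ev (Hl l) with hf
  have hne : ((Finset.range (k + 1)).filter fun l => f l ≠ 0).Nonempty :=
    ⟨l₀, Finset.mem_filter.2 ⟨Finset.mem_range.2 (by omega), hQ₀.2.2.1⟩⟩
  obtain ⟨l₁, hl₁, hmin⟩ := Finset.exists_min_image _ (fun l => (f l).order) hne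
  rw [Finset.mem_filter] at hl₁
  set ω := (f l₁).order with hω
  have hco : ∀ l, (∑ l ∈ Finset.range (k + 1), Polynomial.monomial l ((f l).coeff ω)).coeff l =
      if l ∈ Finset.range (k + 1) then (f l).coeff ω else 0 := by
    intro l
    simp only [Polynomial.finsetSum_coeff, Polynomial.coeff_monomial, Finset.sum_ite_eq']
  have h2 := hΦ (∑ l ∈ Finset.range (k + 1), Polynomial.monomial l ((f l).coeff ω))
    (fun l m hm => ?_) (fun i j => hP i k _ F a Hl (hF (Sum.inr i)) hexp ω j) fun i l => ?_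
  · have := hco l₁
    rw [h2, if_pos hl₁.1, Polynomial.coeff_zero] at this
    exact hl₁.2 (HahnSeries.coeff_order_eq_zero.1 this.symm)
  · rw [hco] at hm
    by_cases hl : l ∈ Finset.range (k + 1)
    swap
    · simp [hl] at hm
    rw [if_pos hl] at hm
    have hfl : f l ≠ 0 := fun h => by simp [h] at hm
    rcases hQ l with h | ⟨q1, q2, -⟩
    · exact absurd (by simp [hf, h]) hfl
    have hLB : LB ω (f l) := fun γ hγ => HahnSeries.coeff_eq_zero_of_lt_order
      (hγ.trans_le (hmin l (Finset.mem_filter.2 ⟨hl, hfl⟩)))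
    refine ⟨(k - e * l) / u, (n + 2) * (k - e * l) / v, ?_, ?_,
      Th.window (by linarith) h1 ?_ hLB hm⟩
    · have := Nat.mul_div_le (k - e * l) u
      omega
    · have := Nat.mul_div_le ((n + 2) * (k - e * l)) v
      have h3 : (n + 2) * (k - e * l) + (n + 2) * (e * l) = (n + 2) * k := by
        rw [← mul_add, Nat.sub_add_cancel q1]
      omega
    · simp only [hf, hev, coe_eval₂Hom, eval₂_eq', Fin.prod_univ_two, Matrix.cons_val_zero,
        Matrix.cons_val_one]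
      refine Th.sum _ fun t ht => ?_
      have q3 : u * t 0 + v * t 1 ≤ k - e * l := q2 t ht
      refine ((Th.const s 0 0 _).mul ((tx.pow _).mul (tN.pow _))).mono
        ((Nat.le_div_iff_mul_le hu).2 (le_trans ?_ q3)) ((Nat.le_div_iff_mul_le hv0).2
          (le_trans ?_ (Nat.mul_le_mul_left _ q3)))
      · nlinarith [Nat.mul_le_mul_right (t 1) hn]
      · nlinarith [Nat.mul_le_mul_right (t 0) hv]
  · rw [hco]
    split_ifs
    swap
    · simp
    rcases hQ l with h | ⟨-, -, -, q⟩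
    · simp [hf, h]
    refine ⟨node_dvd _ (q i) ω, node_dvd (x := x) _ ?_ ω⟩
    rw [← evA_inv, hix]
    exact q i

end Core

section Cover

open Polynomial

lemma node_order {A A' B : ℂ[X]} {c : ℂ} (hA : A = (X - C c) ^ 2 * A') (hA' : A'.eval c ≠ 0)
    {G : ℂ[X][X]} {e ν : ℕ} (h : ∀ l, (X - C c) ^ (ν - 2 * l) ∣ (sec A B ^ e * G).coeff l) :
    (X - C c) ^ (ν - e * 2) ∣ ev A B G := by
  have h1 : (C (X - C c) : ℂ[X][X]) ^ ν ∣ (sec A B ^ e * G).comp (C A * X) := by
    rw [← C_pow, C_dvd_iff_dvd_coeff]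
    intro l
    rw [comp_C_mul_X_coeff]
    refine (pow_dvd_pow _ (by omega : ν ≤ ν - 2 * l + 2 * l)).trans ?_
    rw [pow_add, pow_mul]
    exact mul_dvd_mul (h l) (pow_dvd_pow_of_dvd ⟨_, hA⟩ l)
  have h2 : (sec A B).comp (C A * X) = C (X - C c) ^ 2 * (C A' * (C B * X - 1)) := by
    rw [sec, sub_comp, mul_comp, C_comp, C_comp, X_comp, hA, C_mul, C_pow]
    ring
  rw [mul_comp, pow_comp, h2] at h1
  have h3 := pow_cancel (prime_C_iff.2 (prime_X_sub_C c)) (fun h4 => hA' (by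
    simpa [dvd_iff_isRoot] using (C_dvd_iff_dvd_coeff _ _).1 h4 0)) h1
  rw [← C_pow, C_dvd_iff_dvd_coeff] at h3
  rw [ev_sum, mul_comm e]
  refine Finset.dvd_sum fun l _ => ?_
  rw [mul_left_comm, ← comp_C_mul_X_coeff]
  exact (h3 l).mul_left _

lemma ev_range' {A : ℂ[X]} {π : ℕ} {G : ℂ[X][X]} {n : ℕ} (hn : (ev A (X ^ π) G).coeff n ≠ 0) :
    ∃ l p q : ℕ, l ≤ G.natDegree ∧ (G.coeff l).coeff p ≠ 0 ∧
      p + q + π * (G.natDegree - l) = n ∧ q ≤ l * A.natDegree := by
  rw [ev_sum, finsetSum_coeff] at hn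
  obtain ⟨l, hl, h1⟩ := Finset.exists_ne_zero_of_sum_ne_zero hn
  rw [mul_left_comm, ← pow_mul, coeff_X_pow_mul'] at h1
  split_ifs at h1 with h4
  swap
  · exact absurd rfl h1
  rw [coeff_mul] at h1
  obtain ⟨⟨p, q⟩, hpq, h2⟩ := Finset.exists_ne_zero_of_sum_ne_zero h1
  rw [Finset.HasAntidiagonal.mem_antidiagonal] at hpq
  exact ⟨l, p, q, Nat.lt_succ_iff.1 (Finset.mem_range.1 hl), left_ne_zero_of_mul h2,
    by simp only at hpq; omega,
    (le_natDegree_of_ne_zero (right_ne_zero_of_mul h2)).trans natDegree_pow_le⟩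

theorem coverH {π : ℕ} {lam δ lL lR a d : ℝ} {A : ℂ[X]} (hA : A.coeff 0 ≠ 0) (hδ : 0 < δ)
    (hl : δ ≤ lam) (h1 : lL + lR = δ ^ 2) (h2 : π + lR = δ * lam)
    (h3 : (A.natDegree : ℝ) ≤ δ * lam) {F : ℂ[X][X]} (hF : F ≠ 0) (hL : Wt 1 (-lL) a F)
    (hR : Wt (-1) (-lR) (-(a + δ * d)) F) {κ : Type} [Fintype κ] {τ : κ → ℂ} {μ m : κ → ℕ}
    (hτ : Function.Injective τ) (h0 : ∀ k, τ k ≠ 0) (hm : ∑ k, (m k : ℝ) ≤ lam ^ 2)
    (hv : ∀ k e G, F = sec A (X ^ π) ^ e * G → (X - C (τ k)) ^ (μ k - e * m k) ∣ ev A (X ^ π) G) :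
    ∑ k, (μ k : ℝ) ≤ d * lam := by
  have hB : (X ^ π : ℂ[X]) ≠ 0 := pow_ne_zero _ X_ne_zero
  have hc : IsCoprime A (X ^ π) :=
    ((irreducible_X.coprime_iff_not_dvd.2 fun h => hA (X_dvd_iff.1 h)).pow_left).symm
  obtain ⟨e, G, hG, hFG⟩ := WfDvdMonoid.max_power_factor hF (prime_sec hc hB).irreducible
  have hL' := Wt.cancel_pow (c := 0) one_ne_zero (l₀ := 0) (n₀ := 0)
    (by rwa [sec_zero, coeff_neg, neg_ne_zero]) (by simp) e (hFG ▸ hL)
  have hR' := Wt.cancel_pow (c := -(δ * lam)) (neg_ne_zero.2 one_ne_zero) (l₀ := 1) (n₀ := π)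
    (by simp [sec_one]) (by push_cast; linarith) e (hFG ▸ hR)
  have hΨ : ev A (X ^ π) G ≠ 0 := fun h => hG (sec_dvd hc h)
  have hG0 : G ≠ 0 := fun h => hG (h ▸ dvd_zero _)
  obtain ⟨n₁, n₂, e1, e2, e3⟩ := count hτ h0 hΨ fun k => hv k e G hFG
  obtain ⟨l₁, p₁, q₁, a1, a2, a3, -⟩ := ev_range' e1
  obtain ⟨l₂, p₂, q₂, b1, b2, b3, b4⟩ := ev_range' e2
  obtain ⟨p₀, c1⟩ : ∃ p, (G.coeff G.natDegree).coeff p ≠ 0 :=
    ⟨_, leadingCoeff_ne_zero.2 (leadingCoeff_ne_zero.2 hG0)⟩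
  set J := G.natDegree with hJ
  have c2 := hL' _ _ c1
  have c3 := hR' _ _ c1
  have a5 := hL' _ _ a2
  have b6 := hR' _ _ b2
  have a1' : (l₁ : ℝ) ≤ J := by exact_mod_cast a1
  have a3' : (p₁ : ℝ) + q₁ + π * (J - l₁) = n₁ := by
    rw [← Nat.cast_sub a1]
    exact_mod_cast a3
  have b3' : (p₂ : ℝ) + q₂ + π * (J - l₂) = n₂ := by
    rw [← Nat.cast_sub b1]
    exact_mod_cast b3
  have b5 : (q₂ : ℝ) ≤ l₂ * A.natDegree := by exact_mod_cast b4
  have b7 := mul_le_mul_of_nonneg_left h3 (Nat.cast_nonneg (α := ℝ) l₂)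
  have e4 : (n₁ : ℝ) + ∑ k, ((μ k : ℝ) - e * m k) ≤ n₂ := by
    refine le_trans ?_ (show (n₁ : ℝ) + ∑ k, ((μ k - e * m k : ℕ) : ℝ) ≤ n₂ by exact_mod_cast e3)
    refine add_le_add le_rfl (Finset.sum_le_sum fun k _ => ?_)
    have : μ k ≤ μ k - e * m k + e * m k := by omega
    have : (μ k : ℝ) ≤ ((μ k - e * m k : ℕ) : ℝ) + e * m k := by exact_mod_cast this
    linarith
  rw [Finset.sum_sub_distrib, ← Finset.mul_sum] at e4
  have e5 := mul_le_mul_of_nonneg_left hm (Nat.cast_nonneg (α := ℝ) e)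
  obtain rfl : lL = δ ^ 2 - lR := by linarith
  obtain rfl : lR = δ * lam - π := by linarith
  have c4 : δ * J ≤ d - e * lam := by
    refine le_of_mul_le_mul_left ?_ hδ
    linarith
  have c5 := mul_le_mul_of_nonneg_left c4 (sub_nonneg.2 hl)
  have c6 := mul_le_mul_of_nonneg_left a1' (mul_nonneg hδ.le (sub_nonneg.2 hl))
  have c7 := Nat.cast_nonneg (α := ℝ) q₁
  nlinarith

lemma cc_elim (n : ℕ) : Function.Injective
    (Sum.elim (fun i : Fin n => (cc i : ℂ)) fun i : Fin n => ((cc i)⁻¹ : ℂˣ)) := by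
  have h : Function.Injective fun i : Fin n => (cc i : ℂ) := fun i j h =>
    Fin.ext (by simpa [cc] using h)
  refine h.sumElim (fun i j e => h (by simpa using e)) fun i j e => ?_
  have h1 : ((i : ℕ) + 2 : ℂ) * ((j : ℕ) + 2) = 1 := by
    have := (cc j).inv_mul
    rwa [← e] at this
  have h2 : ((i : ℕ) + 2) * ((j : ℕ) + 2) = 1 := by exact_mod_cast h1
  nlinarith

theorem nef_hyp {n t u v σ π : ℕ} {lam s δ R : ℝ} (hu : 0 < u) (hn : u * n ≤ v)
    (hv : v ≤ u * (n + 2)) (hv0 : 0 < v) (hσ : σ ^ 2 = u * v)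
    (H : ∀ d (μ : Fin n ⊕ Fin t → ℕ), KE (wt u v (σ * d)) μ 0 → KE (tri (d + 1)) μ 0)
    (h0 : 0 < s) (h1 : s < 1) (hδ : δ * σ = u * (n + 2) + v)
    (hR : 2 * R * (u * v) = (1 + s) * v + (1 - s) * (n + 2) * u)
    (hπ : π + δ * σ * R = δ * lam) (hl : δ ≤ lam) (h4 : 4 * n ≤ δ * lam)
    (ht : 4 * (n : ℝ) + t ≤ lam ^ 2) : NEF lam n t := by
  classical
  intro d μ hd
  have hu' : (0 : ℝ) < u := by exact_mod_cast hu
  have hv' : (0 : ℝ) < v := by exact_mod_cast hv0
  have hσ' : (σ : ℝ) ^ 2 = u * v := by exact_mod_cast hσ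
  have hσ0 : (0 : ℝ) < σ := by
    refine (Nat.cast_nonneg σ).lt_of_ne fun e => ?_
    rw [← e] at hσ'
    nlinarith [mul_pos hu' hv']
  have hδ0 : 0 < δ := (mul_pos_iff_of_pos_right hσ0).1 (by rw [hδ]; positivity)
  set c := Sum.elim (fun i : Fin n => (cc i : ℂ)) fun i : Fin n => ((cc i)⁻¹ : ℂˣ) with hc
  have hc0 : ∀ k, c k ≠ 0 := by rintro (i | i) <;> exact Units.ne_zero _
  set A : ℂ[X] := ∏ k, (X - C (c k)) ^ 2 with hA
  have hAe : ∀ y, A.eval y ≠ 0 ↔ ∀ k, y ≠ c k := fun y => by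
    simp [hA, eval_prod, Finset.prod_ne_zero_iff, sub_ne_zero, -Fintype.prod_sum_type]
  have hA0 : A.eval 0 ≠ 0 := (hAe 0).2 fun k => (hc0 k).symm
  obtain ⟨p, hp, hcore⟩ := coreH h0 h1 hu hn hv hv0
  obtain ⟨w, hw, hq⟩ := exists_avoid (q := X * p * A)
    (mul_ne_zero (mul_ne_zero X_ne_zero hp) fun e => hA0 (by rw [e, eval_zero]))
  simp only [eval_mul, eval_X, mul_ne_zero_iff] at hq
  obtain ⟨P, hP⟩ := hcore (fun i : Fin t => Units.mk0 (w i) (hq i).1.1)
    (fun i => A.eval (w i) / w i ^ π) fun i => (hq i).1.2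
  obtain ⟨Q, hQ⟩ := Win.Fill.spec _ (wt_finite hu hv0 (σ * d)) P μ
    (hP μ (σ * d) fun Φ hs h2 h3 => by
    by_contra hΦ
    obtain ⟨N, F, hF⟩ := conv Φ
    have hco : ∀ l m : ℕ, (F.coeff l).coeff m = (Φ.coeff l).coeff (m - N) := by
      intro l m
      have := congrArg (fun a : Polynomial Tate.A => (a.coeff l).coeff (m : ℤ)) hF
      simp only [coeff_map, coeff_mul_C, LaurentPolynomial.T,
        AddMonoidAlgebra.coeff_mul_single_apply, mul_one] at this
      rw [sub_eq_add_neg, ← this, LaurentPolynomial.coeff_toLaurent]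
      exact (Finsupp.mapDomain_apply (Nat.castEmbedding (R := ℤ)).injective _ m).symm
    have hF0 : F ≠ 0 := by
      rintro rfl
      rw [Polynomial.map_zero] at hF
      exact mul_ne_zero hΦ (C_ne_zero.2 (LaurentPolynomial.isUnit_T _).ne_zero) hF.symm
    have hsup : ∀ l m : ℕ, (F.coeff l).coeff m ≠ 0 →
        -((δ - σ * R) * (d - δ * l)) ≤ m - N ∧ (m : ℝ) - N ≤ σ * R * (d - δ * l) := by
      intro l m hm
      rw [hco] at hm
      obtain ⟨a, b, k1, k2, k3, k4⟩ := hs _ _ hm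
      have k1' : (u : ℝ) * a + δ * σ * l ≤ σ * d := by rw [hδ]; exact_mod_cast k1
      have k2' : (v : ℝ) * b + (n + 2) * (δ * σ * l) ≤ (n + 2) * (σ * d) := by
        rw [hδ]; exact_mod_cast k2
      push_cast at k3 k4
      have k5 := mul_le_mul_of_nonneg_left k1' (by positivity : 0 ≤ (1 + s) * v)
      have k6 := mul_le_mul_of_nonneg_left k2' (mul_nonneg (sub_nonneg.2 h1.le) hu'.le)
      have k7 := mul_le_mul_of_nonneg_left k1' (mul_nonneg (sub_nonneg.2 h1.le) hv'.le)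
      have k8 := mul_le_mul_of_nonneg_left k2' (by positivity : 0 ≤ (1 + s) * u)
      have k9 := mul_le_mul_of_nonneg_left k3 (mul_pos hu' hv').le
      have k10 := mul_le_mul_of_nonneg_left k4 (mul_pos hu' hv').le
      have k11 : 2 * (u * v) * (σ * R * (d - δ * l)) =
          σ * (d - δ * l) * ((1 + s) * v + (1 - s) * (n + 2) * u) := by rw [← hR]; ring
      have k12 : u * v * (δ * (d - δ * l)) = σ * (d - δ * l) * (u * (n + 2) + v) := by
        rw [← hδ, ← hσ']; ring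
      constructor <;> refine le_of_mul_le_mul_left ?_ (by positivity : (0 : ℝ) < 2 * (u * v)) <;>
        linarith
    have hloc : ∀ (y : ℂˣ) (k l : ℕ), PowerSeries.X ^ k ∣ loc y (Φ.coeff l) →
        (X - C (y : ℂ)) ^ k ∣ F.coeff l := fun y k l h => dvd_of_loc y _ _ (by
      rw [← coeff_map, hF, coeff_mul_C, map_mul]
      exact h.mul_right _)
    refine absurd (coverH (π := π) (A := A) (lL := (δ - σ * R) * δ) (lR := σ * R * δ)
      (a := N - (δ - σ * R) * d) (d := d) (by rwa [coeff_zero_eq_eval_zero]) hδ0 hl (by ring)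
      (by linarith) ?_ hF0 (fun l m hm => ?_) (fun l m hm => ?_) (τ := Sum.elim c fun i : Fin t => w i)
      (μ := Sum.elim (Sum.elim (μ ∘ Sum.inl) (μ ∘ Sum.inl)) (μ ∘ Sum.inr))
      (m := Sum.elim (fun _ => 2) fun _ => 1)
      ((cc_elim n).sumElim (fun a b hab => Fin.ext (hw hab))
        fun a b hab => (hAe _).1 (hq b).2 a hab.symm) ?_ ?_ ?_) (not_le.2 ?_)
    · rw [hA, natDegree_prod _ _ fun i _ => pow_ne_zero _ (X_sub_C_ne_zero _)]
      simp only [natDegree_pow, natDegree_X_sub_C, Finset.sum_const, Finset.card_univ,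
        Fintype.card_sum, Fintype.card_fin, smul_eq_mul]
      push_cast
      linarith
    · linarith [(hsup l m hm).1]
    · linarith [(hsup l m hm).2]
    · rintro (k | k)
      · exact hc0 k
      · exact (hq k).1.1
    · simp only [Fintype.sum_sum_type, Sum.elim_inl, Sum.elim_inr, Finset.sum_const,
        Finset.card_univ, Fintype.card_sum, Fintype.card_fin, nsmul_eq_mul]
      push_cast
      linarith
    · rintro (k | k) e G rfl
      · refine node_order (Finset.mul_prod_erase _ (fun k => (X - C (c k)) ^ 2)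
          (Finset.mem_univ k)).symm ?_ fun l => ?_
        · rw [eval_prod]
          refine Finset.prod_ne_zero_iff.2 fun j hj => ?_
          rw [eval_pow, eval_sub, eval_X, eval_C]
          exact pow_ne_zero _ (sub_ne_zero.2 fun e => (Finset.mem_erase.1 hj).1 (cc_elim n e).symm)
        · rcases k with k | k
          · exact hloc _ _ _ (h3 k l).1
          · exact hloc _ _ _ (h3 k l).2
      · have k0 : (X ^ π : ℂ[X]).eval (w k) = w k ^ π := by simp
        simp only [Sum.elim_inr, mul_one]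
        refine local_order (u := A.eval (w k) / w k ^ π) (k0 ▸ pow_ne_zero _ (hq k).1.1)
          (by rw [k0, div_mul_cancel₀ _ (pow_ne_zero _ (hq k).1.1)]) fun j => ?_
        refine dvd_of_loc (Units.mk0 (w k) (hq k).1.1) _ _ ?_
        rw [← coeff_map, map_taylor, hF, toLaurent_C, taylor_mul, taylor_C, coeff_mul_C, map_mul]
        exact (h2 k j).mul_right _
    · simp only [Fintype.sum_sum_type, Sum.elim_inl, Sum.elim_inr, Function.comp_apply]
      linarith)
  exact H d μ ⟨Q, fun a => a.elim0, fun F k1 k2 _ => hQ F k1 k2⟩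

end Cover

theorem nef_gap {n t u v σ π : ℕ} {lam δ γ : ℝ} (hu : 0 < u) (hn : u * n ≤ v)
    (hv : v ≤ u * (n + 2)) (hv0 : 0 < v) (hσ : σ ^ 2 = u * v)
    (H : ∀ d (μ : Fin n ⊕ Fin t → ℕ), KE (wt u v (σ * d)) μ 0 → KE (tri (d + 1)) μ 0)
    (hδ : δ * σ = u * (n + 2) + v) (hγ : 2 * γ * (u * v) = δ * σ * (u * (n + 2) - v))
    (h0 : δ * lam - δ ^ 2 / 2 < π) (h1 : π < δ * lam - δ ^ 2 / 2 + γ) (hl : δ ≤ lam)
    (h4 : 4 * n ≤ δ * lam) (ht : 4 * (n : ℝ) + t ≤ lam ^ 2) : NEF lam n t := by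
  have hγ0 : 0 < γ := by linarith
  have huv : (0 : ℝ) < u * v := by exact_mod_cast Nat.mul_pos hu hv0
  have hσ' : (σ : ℝ) ^ 2 = u * v := by exact_mod_cast hσ
  have he : (0 : ℝ) < δ * σ := by rw [hδ]; positivity
  obtain ⟨s, hs⟩ : ∃ s, s * γ = π - (δ * lam - δ ^ 2 / 2) := ⟨_, div_mul_cancel₀ _ hγ0.ne'⟩
  refine nef_hyp (π := π) (s := s) (R := (δ * lam - π) / (δ * σ)) hu hn hv hv0 hσ H
    ((mul_pos_iff_of_pos_right hγ0).1 (by linarith)) (lt_of_mul_lt_mul_right (by linarith) hγ0.le)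
    hδ (mul_left_cancel₀ he.ne' ?_) (by rw [mul_div_cancel₀ _ he.ne']; ring) hl h4 ht
  rw [mul_assoc 2, mul_left_comm, ← mul_assoc (δ * σ), mul_div_cancel₀ _ he.ne']
  linear_combination (2 * (u * v : ℝ)) * hs - s * hγ + δ * σ * hδ - δ ^ 2 * hσ'

/-- The class with `3 ≤ n ≤ 6` double points and at least nine simple points is nef. -/
theorem nef_mid {n t : ℕ} (h3 : 3 ≤ n) (h6 : n ≤ 6) (ht : 9 ≤ t) (h5 : n = 5 → t ≤ 16) :
    NEF √((4 * n + t : ℕ) : ℝ) n t := by
  have h2 : √((4 * n + t : ℕ) : ℝ) ^ 2 = 4 * n + t := by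
    rw [Real.sq_sqrt (Nat.cast_nonneg _)]
    push_cast
    rfl
  have h0 := Real.sqrt_nonneg ((4 * n + t : ℕ) : ℝ)
  have ht' : (9 : ℝ) ≤ t := by exact_mod_cast ht
  generalize √((4 * n + t : ℕ) : ℝ) = lam at h2 h0
  have key : ∀ y : ℝ, 0 ≤ y → ∃ π : ℕ, y < π ∧ π ≤ y + 1 := fun y hy =>
    ⟨⌊y⌋₊ + 1, by exact_mod_cast Nat.lt_floor_add_one y, by
      push_cast
      linarith [Nat.floor_le hy]⟩
  have four : ∀ δ γ : ℝ, n ≤ 4 → 2 * δ = n + 6 → 4 * γ = δ * (n - 2) → 1 < γ → δ ≤ lam →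
      4 * n ≤ δ ^ 2 → NEF lam n t := by
    intro δ γ k1 k2 k3 k4 k5 k6
    have k7 : 0 < δ := by linarith [Nat.cast_nonneg (α := ℝ) n]
    obtain ⟨π, p1, p2⟩ := key (δ * lam - δ ^ 2 / 2) (by nlinarith)
    exact nef_gap (u := 1) (v := 4) (σ := 2) (γ := γ) one_pos (by omega) (by omega) (by norm_num)
      rfl (fun _ _ => ke_four) (by push_cast; linarith) (by push_cast; linarith) p1 (by linarith) k5
      (by nlinarith) h2.ge
  have five : ∀ (δ γ : ℝ) (π : ℕ), 5 ≤ n → 10 * δ = 4 * n + 33 → 20 * γ = δ * (4 * n - 17) →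
      δ * lam - δ ^ 2 / 2 < π → π < δ * lam - δ ^ 2 / 2 + γ → δ ≤ lam → 4 * n ≤ δ ^ 2 →
      NEF lam n t := by
    intro δ γ π k1 k2 k3 p1 p2 k5 k6
    have k7 : 0 < δ := by linarith [Nat.cast_nonneg (α := ℝ) n]
    exact nef_gap (u := 4) (v := 25) (σ := 10) (γ := γ) (by norm_num) (by omega) (by omega)
      (by norm_num) rfl (fun _ _ => ke_five) (by push_cast; linarith) (by push_cast; linarith)
      p1 p2 k5 (by nlinarith) h2.ge
  have lo : ∀ a : ℝ, a ^ 2 ≤ 4 * n + t → a ≤ lam := fun a h =>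
    le_of_pow_le_pow_left₀ two_ne_zero h0 (h2 ▸ h)
  have hi : ∀ a : ℝ, 0 ≤ a → 4 * n + t ≤ a ^ 2 → lam ≤ a := fun a ha h =>
    le_of_pow_le_pow_left₀ two_ne_zero ha (h2 ▸ h)
  interval_cases n
  · exact four (9 / 2) (9 / 8) (by omega) (by norm_num) (by norm_num) (by norm_num)
      (lo _ (by push_cast; linarith)) (by norm_num)
  · exact four 5 (5 / 2) (by omega) (by norm_num) (by norm_num) (by norm_num)
      (lo _ (by push_cast; linarith)) (by norm_num)
  · obtain ⟨j, hj, k1, k2⟩ : ∃ j ≤ 3, 9 + 2 * j ≤ t ∧ t ≤ 10 + 2 * j :=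
      ⟨(t - 9) / 2, by omega, by omega, by omega⟩
    have k1' : 9 + 2 * (j : ℝ) ≤ t := by exact_mod_cast k1
    have k2' : (t : ℝ) ≤ 10 + 2 * j := by exact_mod_cast k2
    have j0 := Nat.cast_nonneg (α := ℝ) j
    have j3 : (j : ℝ) ≤ 3 := by exact_mod_cast hj
    have a1 := lo ((2826 + 100 * j) / 530) (by push_cast; nlinarith)
    have a2 := hi ((2904 + 100 * j) / 530) (by positivity) (by push_cast; nlinarith)
    exact five (53 / 10) (159 / 200) (15 + j) le_rfl (by norm_num) (by norm_num)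
      (by push_cast; linarith) (by push_cast; linarith) (by linarith) (by norm_num)
  · have a1 := lo (57 / 10) (by push_cast; linarith)
    obtain ⟨π, p1, p2⟩ := key (57 / 10 * lam - (57 / 10) ^ 2 / 2) (by linarith)
    exact five (57 / 10) (399 / 200) π (by omega) (by norm_num) (by norm_num) p1 (by linarith) a1
      (by norm_num)

end Pool.Agent.P.MP_8707bd_ag.Nef
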